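import Pool.Agent.H57.NC.Light

/-!
# Most pairs are heavy: random labellings
-/

set_option autoImplicit false

open Finset

namespace Pool.Agent.H57.NC

/-- the condition on the label `i` -/
def Ok {Γ : Type} [Group Γ] (A S : Finset Γ) (Q : Γ → Finset Γ) (par : ℕ → ℕ) (e : ℕ → Γ)
    (i : ℕ) : Prop :=
  (i = 0 → e 0 ∈ S) ∧ (1 ≤ i → e i ∈ Q (e (par i)) ∧
    ∀ i', 1 ≤ i' → i' < i → par i' = par i → (e i')⁻¹ * e i ∉ A ∧ e i' ≠ e i)

theorem ok_congr {Γ : Type} [Group Γ] {A S : Finset Γ} {Q : Γ → Finset Γ} {par : ℕ → ℕ}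
    (hpar : ∀ i, 1 ≤ i → par i < i) {e e' : ℕ → Γ} {i : ℕ} (h : ∀ j ≤ i, e j = e' j)
    (hok : Ok A S Q par e i) : Ok A S Q par e' i := by
  refine ⟨?_, ?_⟩
  · intro hi
    rw [← h 0 (Nat.zero_le _)]
    exact hok.1 hi
  · intro hi
    obtain ⟨h1, h2⟩ := hok.2 hi
    refine ⟨?_, ?_⟩
    · rw [← h i le_rfl, ← h _ (hpar i hi).le]
      exact h1
    · intro i' hi' hii hp
      rw [← h i le_rfl, ← h i' hii.le]
      exact h2 i' hi' hii hp

theorem ok_mem {Γ : Type} [Group Γ] {A S : Finset Γ} {Q : Γ → Finset Γ} {par : ℕ → ℕ}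
    (hpar : ∀ i, 1 ≤ i → par i < i) (hQ : ∀ x ∈ S, Q x ⊆ S) {e : ℕ → Γ} {j : ℕ}
    (hok : ∀ i < j, Ok A S Q par e i) : ∀ i < j, e i ∈ S := by
  intro i
  induction i using Nat.strong_induction_on with
  | _ i ih =>
    intro hi
    rcases Nat.eq_zero_or_pos i with rfl | hi0
    · exact (hok 0 hi).1 rfl
    · have h1 := hpar i hi0
      exact hQ _ (ih _ h1 (h1.trans hi)) ((hok i hi).2 hi0).1

/-- the condition on the labels `< j` -/
def Al {Γ : Type} [Group Γ] (A S : Finset Γ) (Q : Γ → Finset Γ) (par : ℕ → ℕ) (m j : ℕ)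
    (l : Fin (m + 1) → Γ) : Prop := ∀ i < j, Ok A S Q par (ex l) i

/-- a bad pair -/
def Bd {Γ : Type} [Group Γ] (A X : Finset Γ) (par : ℕ → ℕ) (m : ℕ) (β : ℝ) (u v : ℕ)
    (l : Fin (m + 1) → Γ) : Prop :=
  (ct (ex l (par v) * ex l v) X X : ℝ) < β * X.card ∧
      ((pos par (ex l) u)⁻¹ * pos par (ex l) v ∈ A ∨
        (pos par (ex l) u)⁻¹ * pos par (ex l) v = 1)

open Classical in
/-- many labellings -/
theorem many {Γ : Type} [Group Γ] {A S X : Finset Γ} {Q : Γ → Finset Γ} {par : ℕ → ℕ}
    (hpar : ∀ i, 1 ≤ i → par i < i) (m : ℕ) (t : ℝ) (ht : 0 ≤ t) (hS : S ⊆ X)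
    (hSc : t * X.card ≤ S.card) (hXne : X.Nonempty)
    (hQ : ∀ x ∈ S, Q x ⊆ S) (hQc : ∀ x ∈ S, ∀ J ⊆ Q x, J.card ≤ m →
      t * X.card ≤ (((Q x).filter fun y => ∀ j ∈ J, j⁻¹ * y ∉ A ∧ j ≠ y).card : ℝ)) :
    ∀ j ≤ m + 1, t ^ j * (X.card : ℝ) ^ (m + 1) ≤
      (((Fintype.piFinset fun _ : Fin (m + 1) => X).filter fun l =>
        Al A S Q par m j l).card : ℝ) := by
  have hn : (0 : ℝ) < X.card := by exact_mod_cast hXne.card_pos
  intro j
  induction j with
  | zero =>
    intro _
    have h1 : ((Fintype.piFinset fun _ : Fin (m + 1) => X).filter fun l =>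
        Al A S Q par m 0 l) = Fintype.piFinset fun _ : Fin (m + 1) => X := by
      rw [filter_eq_self]
      intro l _ i hi
      exact absurd hi (Nat.not_lt_zero _)
    rw [h1, Fintype.card_piFinset, prod_const, card_univ, Fintype.card_fin, pow_zero, one_mul]
    push_cast
    exact le_rfl
  | succ j ih =>
    intro hj
    have hjm : j < m + 1 := hj
    obtain ⟨G, hG⟩ : ∃ G, G = (Fintype.piFinset fun _ : Fin (m + 1) => X).filter fun l =>
        Al A S Q par m j l := ⟨_, rfl⟩
    obtain ⟨G', hG'⟩ : ∃ G', G' = (Fintype.piFinset fun _ : Fin (m + 1) => X).filter fun l =>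
        Al A S Q par m (j + 1) l := ⟨_, rfl⟩
    have h1 := ih (by omega)
    rw [← hG] at h1
    rw [← hG']
    have h2 := count_one X G G' ⟨j, hjm⟩ (by
      intro l hl
      rw [hG, mem_filter, Fintype.mem_piFinset] at hl
      exact hl.1 _)
    have h3 : ∀ l ∈ G, t * X.card ≤
        ((X.filter fun y => Function.update l ⟨j, hjm⟩ y ∈ G').card : ℝ) := by
      intro l hl
      rw [hG, mem_filter, Fintype.mem_piFinset] at hl
      obtain ⟨hlX, hlok⟩ := hl
      have hmemS := ok_mem hpar hQ hlok
      have key : ∀ y ∈ X, Ok A S Q par (Function.update (ex l) j y) j →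
          Function.update l ⟨j, hjm⟩ y ∈ G' := by
        intro y hy hok
        rw [hG', mem_filter, Fintype.mem_piFinset]
        refine ⟨?_, ?_⟩
        · intro i
          by_cases hi : i = ⟨j, hjm⟩
          · rw [hi, Function.update_self]; exact hy
          · rw [Function.update_of_ne hi]; exact hlX i
        · intro i hi
          rw [ex_update]
          rcases Nat.lt_succ_iff_lt_or_eq.1 hi with h | rfl
          · apply ok_congr hpar _ (hlok i h)
            intro k hk
            rw [Function.update_of_ne (by omega)]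
          · exact hok
      rcases Nat.eq_zero_or_pos j with rfl | hj0
      · refine hSc.trans ?_
        have : S ⊆ X.filter fun y => Function.update l ⟨0, hjm⟩ y ∈ G' := by
          intro y hy
          rw [mem_filter]
          refine ⟨hS hy, key y (hS hy) ⟨fun _ => ?_, fun h => by omega⟩⟩
          rw [Function.update_self]; exact hy
        exact_mod_cast card_le_card this
      · have hpj := hpar j hj0
        obtain ⟨x, hx⟩ : ∃ x, x = ex l (par j) := ⟨_, rfl⟩
        have hxS : x ∈ S := by rw [hx]; exact hmemS _ hpj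
        obtain ⟨J, hJ⟩ : ∃ J : Finset Γ, J = ((range j).filter fun i' =>
          1 ≤ i' ∧ par i' = par j).image (ex l) := ⟨_, rfl⟩
        have hJQ : J ⊆ Q x := by
          rw [hJ]
          intro z hz
          obtain ⟨i', hi', rfl⟩ := mem_image.1 hz
          rw [mem_filter, mem_range] at hi'
          have := ((hlok i' hi'.1).2 hi'.2.1).1
          rw [hi'.2.2, ← hx] at this
          exact this
        have hJc : J.card ≤ m := by
          rw [hJ]
          refine card_image_le.trans ((card_filter_le _ _).trans ?_)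
          rw [card_range]
          omega
        refine (hQc x hxS J hJQ hJc).trans ?_
        have : ((Q x).filter fun y => ∀ j ∈ J, j⁻¹ * y ∉ A ∧ j ≠ y) ⊆
            X.filter fun y => Function.update l ⟨j, hjm⟩ y ∈ G' := by
          intro y hy
          rw [mem_filter] at hy
          have hyX : y ∈ X := hS (hQ x hxS hy.1)
          rw [mem_filter]
          refine ⟨hyX, key y hyX ⟨fun h => by omega, fun _ => ?_⟩⟩
          rw [Function.update_self, Function.update_of_ne (by omega), ← hx]
          refine ⟨hy.1, ?_⟩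
          intro i' hi' hii hp
          rw [Function.update_of_ne (by omega)]
          apply hy.2
          rw [hJ]
          apply mem_image_of_mem
          rw [mem_filter, mem_range]
          exact ⟨hii, hi', hp⟩
        exact_mod_cast card_le_card this
    have h4 : (G.card : ℝ) * (t * X.card) ≤ (G'.card : ℝ) * X.card := by
      have h5 := sum_le_sum h3
      rw [sum_const, nsmul_eq_mul] at h5
      refine h5.trans ?_
      exact_mod_cast h2
    have h6 : (G.card : ℝ) * t ≤ G'.card := by
      have h7 : (G.card : ℝ) * t * X.card ≤ G'.card * X.card := by linarith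
      exact le_of_mul_le_mul_right h7 hn
    calc t ^ (j + 1) * (X.card : ℝ) ^ (m + 1) = t ^ j * (X.card : ℝ) ^ (m + 1) * t := by ring
      _ ≤ G.card * t := mul_le_mul_of_nonneg_right h1 ht
      _ ≤ G'.card := h6

open Classical in
/-- few labellings have a bad pair -/
theorem few {Γ : Type} [Group Γ] {A X : Finset Γ} (hX : Cn X) {par : ℕ → ℕ} (m : ℕ)
    (β : ℝ) (h1 : 1 ≤ β * X.card) (hs : ∀ z : Γ, (ct z X (A \ X) : ℝ) ≤ β * X.card)
    (u v : ℕ) (hv : v < m + 1) (hpv : par v < v) (hp1 : par (par v) < par v)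
    (huv : ¬ An par (par v) u) :
    (((Fintype.piFinset fun _ : Fin (m + 1) => X).filter fun l =>
      Bd A X par m β u v l).card : ℝ) ≤
      3 * β * (X.card : ℝ) ^ (m + 1) := by
  by_cases hXne : X.Nonempty
  swap
  · rw [not_nonempty_iff_eq_empty] at hXne
    rw [hXne] at h1
    simp at h1
    linarith
  have hn : (0 : ℝ) < X.card := by exact_mod_cast hXne.card_pos
  have hβ : 0 < β := by
    by_contra hcon
    push Not at hcon
    nlinarith
  obtain ⟨B, hB⟩ : ∃ B, B = (Fintype.piFinset fun _ : Fin (m + 1) => X).filter fun l =>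
      Bd A X par m β u v l := ⟨_, rfl⟩
  rw [← hB]
  have hp : par v < m + 1 := by omega
  have h2 := count_two X B ⟨par v, hp⟩ ⟨v, hv⟩ (by
      intro h
      rw [Fin.mk.injEq] at h
      omega) (by
      intro l hl i
      rw [hB, mem_filter, Fintype.mem_piFinset] at hl
      exact hl.1 i) ⌊3 * β * (X.card : ℝ) ^ 2⌋₊ (by
      intro l hl
      apply Nat.le_floor
      obtain ⟨g, hg⟩ : ∃ g, g = (pos par (ex l) u)⁻¹ * pos par (ex l) (par (par v)) := ⟨_, rfl⟩
      refine le_trans ?_ (pairs_bound hX β h1 hs g)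
      have hsub : ((X ×ˢ X).filter fun ab : Γ × Γ =>
          Function.update (Function.update l ⟨par v, hp⟩ ab.1) ⟨v, hv⟩ ab.2 ∈ B) ⊆
          (X ×ˢ X).filter fun ab : Γ × Γ => (ct (ab.1 * ab.2) X X : ℝ) < β * X.card ∧
            (g * (ab.1 * ab.2) ∈ A ∨ g * (ab.1 * ab.2) = 1) := by
        rintro ⟨a, b⟩ hab
        rw [mem_filter] at hab ⊢
        refine ⟨hab.1, ?_⟩
        have h3 := hab.2
        rw [hB, mem_filter] at h3
        have h4 := h3.2
        unfold Bd at h4
        simp only [ex_update] at h4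
        obtain ⟨e', he'⟩ : ∃ e', e' = Function.update (Function.update (ex l) (par v) a) v b :=
          ⟨_, rfl⟩
        rw [← he'] at h4
        have e1 : e' v = b := by rw [he', Function.update_self]
        have e2 : e' (par v) = a := by
          rw [he', Function.update_of_ne (by omega), Function.update_self]
        have e3 : pos par e' u = pos par (ex l) u := by
          apply pos_congr
          intro j hj
          have h5 : j ≠ par v := by rintro rfl; exact huv hj
          have h6 : j ≠ v := by rintro rfl; exact huv (hj.par hpv)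
          rw [he', Function.update_of_ne h6, Function.update_of_ne h5]
        have e4 : pos par e' (par (par v)) = pos par (ex l) (par (par v)) := by
          apply pos_congr
          intro j hj
          have := hj.le
          rw [he', Function.update_of_ne (by omega), Function.update_of_ne (by omega)]
        have e5 : (pos par e' u)⁻¹ * pos par e' v = g * (a * b) := by
          rw [pos_par par e' v hpv, pos_par par e' (par v) hp1, e1, e2, e3, e4, hg]
          group
        rw [e1, e2, e5] at h4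
        exact h4
      exact_mod_cast card_le_card hsub)
  rw [Fintype.card_fin] at h2
  have h3 : (B.card : ℝ) * (X.card : ℝ) ^ 2 ≤
      (X.card : ℝ) ^ (m + 1) * (3 * β * (X.card : ℝ) ^ 2) := by
    have h4 : (B.card : ℝ) * (X.card : ℝ) ^ 2 ≤
      (X.card : ℝ) ^ (m + 1) * (⌊3 * β * (X.card : ℝ) ^ 2⌋₊ : ℝ) := by exact_mod_cast h2
    refine h4.trans (mul_le_mul_of_nonneg_left (Nat.floor_le (by positivity)) (by positivity))
  have h5 : (0 : ℝ) < (X.card : ℝ) ^ 2 := by positivity
  have h6 : (B.card : ℝ) * (X.card : ℝ) ^ 2 ≤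
      (3 * β * (X.card : ℝ) ^ (m + 1)) * (X.card : ℝ) ^ 2 := by
    refine h3.trans (le_of_eq ?_); ring
  exact le_of_mul_le_mul_right h6 h5

open Classical in
/-- in a graph without the tree most pairs are heavy -/
theorem light (m : ℕ) (par : ℕ → ℕ) (hpar : ∀ i, 1 ≤ i → par i < i) (ε : ℝ) (hε : 0 < ε) :
    ∃ β S₀ : ℝ, 0 < β ∧ 0 < S₀ ∧ ∀ (Γ : Type) [Group Γ] (A X : Finset Γ), Cn A →
      (cay (A : Set Γ)).CliqueFree 4 → X ⊆ A → Cn X → S₀ ≤ X.card →
      (∀ z, (ct z X (A \ X) : ℝ) ≤ β * X.card) → ¬ Tr A par m {1} →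
      ∑ x ∈ X, ((X.filter fun y => (ct (x * y) X X : ℝ) < β * X.card).card : ℝ) <
        ε * (X.card : ℝ) ^ 2 := by
  obtain ⟨t, ht⟩ : ∃ t : ℝ, t = ε / (4 * (m + 1)) := ⟨_, rfl⟩
  have hm1 : (0 : ℝ) < (m : ℝ) + 1 := by positivity
  have ht0 : 0 < t := by rw [ht]; positivity
  have hεt : ε / 2 = 2 * (m + 1) * t := by
    rw [ht]; field_simp; ring
  obtain ⟨β, hβ⟩ : ∃ β : ℝ, β = t ^ (m + 1) / (4 * (m + 1) ^ 2) := ⟨_, rfl⟩
  have hβ0 : 0 < β := by rw [hβ]; positivity
  refine ⟨β, m / t + 1 / β, hβ0, by positivity, ?_⟩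
  intro Γ _ A X hA hK hXA hX hbig hs hno
  by_contra hcon
  push Not at hcon
  have hn1 : (m : ℝ) ≤ t * X.card := by
    have h1 : (m : ℝ) / t ≤ X.card := by
      have : 0 < 1 / β := by positivity
      linarith
    rw [div_le_iff₀ ht0] at h1
    linarith
  have hn2 : 1 ≤ β * X.card := by
    have h1 : 1 / β ≤ X.card := by
      have : 0 ≤ (m : ℝ) / t := by positivity
      linarith
    rw [div_le_iff₀ hβ0] at h1
    linarith
  have hXne : X.Nonempty := by
    rw [nonempty_iff_ne_empty]
    rintro rfl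
    simp at hn2
    linarith
  have hn : (0 : ℝ) < X.card := by exact_mod_cast hXne.card_pos
  obtain ⟨R, hR⟩ : ∃ R : Γ → Γ → Prop, R = fun x y => (ct (x * y) X X : ℝ) < β * X.card :=
    ⟨_, rfl⟩
  obtain ⟨S, hSX, ⟨x₀, hx₀⟩, hS⟩ := core X R (by
      intro x y h
      rw [hR] at h ⊢
      have h1 : ct (x * y) X X = ct (y * x) X X := by
        rw [← ct_conj hX.conj hX.conj (x * y) y]
        congr 1
        group
      simp only at h ⊢
      rw [← h1]
      exact h) ε hXne (by rw [hR]; exact hcon)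
  have hcand : ∀ x ∈ S, ∃ Q ⊆ S.filter fun y => R x y, ∀ J ⊆ Q, J.card ≤ m →
      t * X.card ≤ ((Q.filter fun y => ∀ j ∈ J, j⁻¹ * y ∉ A ∧ j ≠ y).card : ℝ) := by
    intro x hx
    apply cand hA hK _ _ m (2 * (t * X.card)) (t * X.card)
    · positivity
    · linarith
    · refine le_trans ?_ (hS x hx)
      rw [hεt]
      nlinarith
    · intro y hy
      exact hXA (hSX (mem_filter.1 hy).1)
  choose! Q hQ1 hQ2 using hcand
  have hQS : ∀ x ∈ S, Q x ⊆ S := fun x hx => (hQ1 x hx).trans (filter_subset _ _)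
  have hSc : t * X.card ≤ (S.card : ℝ) := by
    have h1 := hS x₀ hx₀
    have h2 : ((S.filter fun y => R x₀ y).card : ℝ) ≤ S.card := by
      exact_mod_cast card_filter_le _ _
    have h3 : t * X.card ≤ ε / 2 * X.card := by
      apply mul_le_mul_of_nonneg_right _ hn.le
      rw [hεt]
      nlinarith
    linarith
  have hmany := many hpar m t ht0.le hSX hSc hXne hQS hQ2 (m + 1) le_rfl
  obtain ⟨G, hG⟩ : ∃ G, G = (Fintype.piFinset fun _ : Fin (m + 1) => X).filter fun l =>
        Al A S Q par m (m + 1) l := ⟨_, rfl⟩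
  rw [← hG] at hmany
  obtain ⟨B, hB⟩ : ∃ B : ℕ × ℕ → Finset (Fin (m + 1) → Γ), B = fun uv =>
    if par uv.2 < uv.2 ∧ par (par uv.2) < par uv.2 ∧ ¬ An par (par uv.2) uv.1 then
      (Fintype.piFinset fun _ : Fin (m + 1) => X).filter fun l =>
      Bd A X par m β uv.1 uv.2 l else ∅ := ⟨_, rfl⟩
  have hBc : ∀ uv ∈ range (m + 1) ×ˢ range (m + 1), ((B uv).card : ℝ) ≤
      3 * β * (X.card : ℝ) ^ (m + 1) := by
    rintro ⟨u, v⟩ huv
    rw [mem_product, mem_range, mem_range] at huv
    rw [hB]
    simp only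
    split_ifs with h
    · exact few hX m β hn2 hs u v huv.2 h.1 h.2.1 h.2.2
    · simp only [card_empty, Nat.cast_zero]
      positivity
  have hun : ((((range (m + 1) ×ˢ range (m + 1)).biUnion B).card : ℕ) : ℝ) < G.card := by
    have h1 : ((((range (m + 1) ×ˢ range (m + 1)).biUnion B).card : ℕ) : ℝ) ≤
        ∑ uv ∈ range (m + 1) ×ˢ range (m + 1), ((B uv).card : ℝ) := by
      exact_mod_cast card_biUnion_le
    have h2 := sum_le_sum hBc
    rw [sum_const, nsmul_eq_mul, card_product, card_range] at h2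
    push_cast at h2
    have h3 : ((m : ℝ) + 1) * ((m : ℝ) + 1) * (3 * β * (X.card : ℝ) ^ (m + 1)) =
        3 / 4 * (t ^ (m + 1) * (X.card : ℝ) ^ (m + 1)) := by
      rw [hβ]; field_simp
    have h4 : 0 < t ^ (m + 1) * (X.card : ℝ) ^ (m + 1) := by positivity
    linarith
  obtain ⟨l, hlG, hlB⟩ : ∃ l ∈ G, l ∉ (range (m + 1) ×ˢ range (m + 1)).biUnion B := by
    by_contra hc
    push Not at hc
    have := card_le_card hc
    have h1 : (G.card : ℝ) ≤ ((((range (m + 1) ×ˢ range (m + 1)).biUnion B).card : ℕ) : ℝ) := by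
      exact_mod_cast this
    linarith
  rw [hG, mem_filter] at hlG
  obtain ⟨hlX, hok⟩ := hlG
  have hmem := ok_mem hpar hQS hok
  -- avoided pairs
  have hav : ∀ u v, u < m + 1 → v < m + 1 → 1 ≤ v → ¬ An par (par v) u →
      (pos par (ex l) u)⁻¹ * pos par (ex l) v ∉ A ∧
        (pos par (ex l) u)⁻¹ * pos par (ex l) v ≠ 1 := by
    intro u v hu hv hv1 han
    have h1 := hpar v hv1
    have h2 : 1 ≤ par v := by
      rcases Nat.eq_zero_or_pos (par v) with h3 | h3
      · exfalso
        apply han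
        rw [h3]
        exact An.zero hpar u
      · exact h3
    have h3 := hpar _ h2
    have h4 : l ∉ B (u, v) := by
      intro h5
      apply hlB
      rw [mem_biUnion]
      exact ⟨(u, v), by rw [mem_product, mem_range, mem_range]; exact ⟨hu, hv⟩, h5⟩
    rw [hB] at h4
    simp only at h4
    rw [if_pos ⟨h1, h3, han⟩, mem_filter] at h4
    have h5 : (ct (ex l (par v) * ex l v) X X : ℝ) < β * X.card := by
      have h6 := hQ1 _ (hmem _ (h1.trans hv)) ((hok v hv).2 hv1).1
      rw [mem_filter, hR] at h6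
      exact h6.2
    constructor
    · intro h6
      exact h4 ⟨hlX, h5, Or.inl h6⟩
    · intro h6
      exact h4 ⟨hlX, h5, Or.inr h6⟩
  apply hno
  refine ⟨pos par (ex l), ?_⟩
  intro i j hij hj
  have hj1 : 1 ≤ j := by omega
  have hpj := hpar j hj1
  have hjm : j < m + 1 := by omega
  have him : i < m + 1 := by omega
  by_cases hpi : par j = i
  · have h1 : (pos par (ex l) i)⁻¹ * pos par (ex l) j = ex l j := by
      rw [pos_par par (ex l) j hpj, hpi]; group
    have h2 : ex l j ∈ A := hXA (hSX (hmem j hjm))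
    rw [h1]
    refine ⟨fun _ => h2, fun h3 => absurd hpi h3, ?_⟩
    rw [Set.mem_singleton_iff]
    intro h3
    rw [h3] at h2
    exact hA.one h2
  · have key : (pos par (ex l) i)⁻¹ * pos par (ex l) j ∉ A ∧
        (pos par (ex l) i)⁻¹ * pos par (ex l) j ≠ 1 := by
      by_cases hsib : 1 ≤ i ∧ par i = par j
      · obtain ⟨hi1, hpp⟩ := hsib
        have h1 : (pos par (ex l) i)⁻¹ * pos par (ex l) j = (ex l i)⁻¹ * ex l j := by
          rw [pos_par par (ex l) j hpj, pos_par par (ex l) i (hpar i hi1), hpp]; group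
        rw [h1]
        obtain ⟨h2, h3⟩ := ((hok j hjm).2 hj1).2 i hi1 hij hpp
        refine ⟨h2, ?_⟩
        intro h4
        apply h3
        have : ex l i * ((ex l i)⁻¹ * ex l j) = ex l i * 1 := by rw [h4]
        rw [mul_one, mul_inv_cancel_left] at this
        exact this.symm
      · by_cases han : An par (par j) i
        · have hi1 : 1 ≤ i := by
            rcases Nat.eq_zero_or_pos i with rfl | h
            · exfalso
              have := han.le
              exact hpi (by omega)
            · exact h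
          have han' : ¬ An par (par i) j := by
            intro h2
            apply hsib
            refine ⟨hi1, An.sib han h2 hpi ?_⟩
            have := hpar i hi1
            omega
          obtain ⟨h1, h2⟩ := hav j i hjm him hi1 han'
          have h3 : ((pos par (ex l) j)⁻¹ * pos par (ex l) i)⁻¹ =
              (pos par (ex l) i)⁻¹ * pos par (ex l) j := by group
          rw [← h3]
          refine ⟨?_, ?_⟩
          · rw [hA.inv_iff]; exact h1
          · intro h4
            exact h2 (inv_eq_one.1 h4)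
        · exact hav i j him hjm hj1 han
    exact ⟨fun h => absurd h hpi, fun _ => key.1, key.2⟩

end Pool.Agent.H57.NC
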