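import Mathlib

/-!
# Conjugation-invariant sets in finite groups: translates, norms, separated sets
-/

set_option autoImplicit false

open Finset

namespace Pool.Agent.H57.NC

/-- the Cayley graph of a group with connection set `A` -/
def cay {Γ : Type} [Group Γ] (A : Set Γ) : SimpleGraph Γ :=
  SimpleGraph.fromRel fun x y => x⁻¹ * y ∈ A

/-- symmetric conjugation-invariant set without the neutral element -/
structure Cn {Γ : Type} [Group Γ] (A : Finset Γ) : Prop where
  one : (1 : Γ) ∉ A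
  inv : ∀ a ∈ A, a⁻¹ ∈ A
  conj : ∀ a ∈ A, ∀ h : Γ, h * a * h⁻¹ ∈ A

section
variable {Γ : Type} [Group Γ]

theorem cay_adj {A : Finset Γ} (hA : Cn A) (x y : Γ) :
    (cay (A : Set Γ)).Adj x y ↔ x⁻¹ * y ∈ A := by
  unfold cay
  rw [SimpleGraph.fromRel_adj]
  simp only [mem_coe]
  constructor
  · rintro ⟨_, h | h⟩
    · exact h
    · have := hA.inv _ h
      simpa [mul_inv_rev] using this
  · intro h
    refine ⟨?_, Or.inl h⟩
    rintro rfl
    rw [inv_mul_cancel] at h
    exact hA.one h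

theorem Cn.inv_iff {A : Finset Γ} (hA : Cn A) (a : Γ) : a⁻¹ ∈ A ↔ a ∈ A := by
  constructor
  · intro h
    have := hA.inv _ h
    rwa [inv_inv] at this
  · exact hA.inv a

theorem Cn.conj_iff {A : Finset Γ} (hA : Cn A) (a h : Γ) : h * a * h⁻¹ ∈ A ↔ a ∈ A := by
  constructor
  · intro h1
    have := hA.conj _ h1 h⁻¹
    convert this using 1
    group
  · intro h1
    exact hA.conj a h1 h

/-- `x y` and `y x` -/
theorem Cn.comm_iff {A : Finset Γ} (hA : Cn A) (x y : Γ) : x * y ∈ A ↔ y * x ∈ A := by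
  rw [← hA.conj_iff (x * y) y]
  have : y * (x * y) * y⁻¹ = y * x := by group
  rw [this]

open Classical in
/-- number of the `b ∈ X` with `z b ∈ Y` -/
noncomputable def ct (z : Γ) (X Y : Finset Γ) : ℕ := (X.filter fun b => z * b ∈ Y).card

theorem ct_mono (z : Γ) {X X' Y Y' : Finset Γ} (h : X ⊆ X') (h' : Y ⊆ Y') :
    ct z X Y ≤ ct z X' Y' := by
  classical
  apply card_le_card
  intro b hb
  rw [mem_filter] at hb ⊢
  exact ⟨h hb.1, h' hb.2⟩

theorem ct_le (z : Γ) (X Y : Finset Γ) : ct z X Y ≤ X.card := by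
  classical
  exact card_filter_le _ _

theorem ct_inv (z : Γ) (X : Finset Γ) : ct z⁻¹ X X = ct z X X := by
  classical
  have key : ∀ z : Γ, ct z⁻¹ X X ≤ ct z X X := by
    intro z
    refine card_le_card_of_injOn (fun b => z⁻¹ * b) ?_ ?_
    · intro b hb
      rw [mem_coe, mem_filter] at hb ⊢
      exact ⟨hb.2, by simpa using hb.1⟩
    · intro b _ c _ h
      exact mul_left_cancel h
  refine le_antisymm (key z) ?_
  have := key z⁻¹
  rwa [inv_inv] at this

theorem ct_conj {X Y : Finset Γ} (hX : ∀ a ∈ X, ∀ h : Γ, h * a * h⁻¹ ∈ X)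
    (hY : ∀ a ∈ Y, ∀ h : Γ, h * a * h⁻¹ ∈ Y) (z h : Γ) :
    ct (h * z * h⁻¹) X Y = ct z X Y := by
  classical
  have key : ∀ z h : Γ, ct z X Y ≤ ct (h * z * h⁻¹) X Y := by
    intro z h
    refine card_le_card_of_injOn (fun b => h * b * h⁻¹) ?_ ?_
    · intro b hb
      rw [mem_coe, mem_filter] at hb ⊢
      refine ⟨hX b hb.1 h, ?_⟩
      have := hY _ hb.2 h
      convert this using 1
      group
    · intro b _ c _ hbc
      have h1 : h * b * h⁻¹ = h * c * h⁻¹ := hbc
      exact mul_left_cancel (mul_right_cancel h1)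
  refine le_antisymm ?_ (key z h)
  have := key (h * z * h⁻¹) h⁻¹
  have h2 : h⁻¹ * (h * z * h⁻¹) * h⁻¹⁻¹ = z := by group
  rwa [h2] at this

/-- triangle inequality for the number of elements leaving `X` -/
theorem ct_mul (g h : Γ) (X : Finset Γ) :
    ct g X X + ct h X X ≤ ct (g * h) X X + X.card := by
  classical
  have h1 : (X.filter fun b => h * b ∈ X).card =
      ((X.filter fun b => h * b ∈ X).image fun b => h * b).card :=
    (card_image_of_injective _ (mul_right_injective h)).symm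
  obtain ⟨P, hP⟩ : ∃ P : Finset Γ, P = (X.filter fun b => h * b ∈ X).image fun b => h * b :=
    ⟨_, rfl⟩
  obtain ⟨Q, hQ⟩ : ∃ Q : Finset Γ, Q = X.filter fun b => g * b ∈ X := ⟨_, rfl⟩
  have hPX : P ⊆ X := by
    rw [hP]
    intro b hb
    obtain ⟨c, hc, rfl⟩ := mem_image.1 hb
    exact (mem_filter.1 hc).2
  have hQX : Q ⊆ X := by rw [hQ]; exact filter_subset _ _
  have h2 : (P ∩ Q).card ≤ ct (g * h) X X := by
    refine card_le_card_of_injOn (fun b => h⁻¹ * b) ?_ ?_
    · intro b hb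
      rw [mem_coe, mem_inter] at hb
      rw [mem_coe, mem_filter]
      obtain ⟨hb1, hb2⟩ := hb
      rw [hP] at hb1
      obtain ⟨c, hc, rfl⟩ := mem_image.1 hb1
      rw [hQ] at hb2
      refine ⟨by simpa using (mem_filter.1 hc).1, ?_⟩
      have := (mem_filter.1 hb2).2
      simpa [mul_assoc] using this
    · intro b _ c _ hbc
      exact mul_left_cancel hbc
  have h3 : (P ∪ Q).card ≤ X.card := card_le_card (union_subset hPX hQX)
  have h4 := card_union_add_card_inter P Q
  have h5 : ct h X X = P.card := by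
    rw [hP]; exact h1
  have h6 : ct g X X = Q.card := by rw [hQ]; rfl
  omega

/-- a conjugation-invariant norm -/
structure Nr (ν : Γ → ℝ) : Prop where
  one : ν 1 = 0
  inv : ∀ g, ν g⁻¹ = ν g
  mul : ∀ g h, ν (g * h) ≤ ν g + ν h
  conj : ∀ g h, ν (h * g * h⁻¹) = ν g

theorem Nr.comm {ν : Γ → ℝ} (hν : Nr ν) (g h : Γ) : ν (g * h) = ν (h * g) := by
  rw [← hν.conj (g * h) h]
  congr 1
  group

theorem Nr.tri {ν : Γ → ℝ} (hν : Nr ν) (x y z : Γ) :
    ν (x⁻¹ * z) ≤ ν (x⁻¹ * y) + ν (y⁻¹ * z) := by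
  have := hν.mul (x⁻¹ * y) (y⁻¹ * z)
  have h : x⁻¹ * y * (y⁻¹ * z) = x⁻¹ * z := by group
  rwa [h] at this

theorem Nr.symm {ν : Γ → ℝ} (hν : Nr ν) (x y : Γ) : ν (x⁻¹ * y) = ν (y⁻¹ * x) := by
  rw [← hν.inv]
  congr 1
  group

/-- the norm given by a conjugation-invariant set -/
noncomputable def nm (X : Finset Γ) (g : Γ) : ℝ := 1 - (ct g X X : ℝ) / X.card

theorem nm_nr {X : Finset Γ} (hne : X.Nonempty) (hX : ∀ a ∈ X, ∀ h : Γ, h * a * h⁻¹ ∈ X) :
    Nr (nm X) := by
  classical
  have hc : (0 : ℝ) < X.card := by exact_mod_cast hne.card_pos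
  refine ⟨?_, ?_, ?_, ?_⟩
  · have : ct 1 X X = X.card := by
      unfold ct
      congr 1
      rw [filter_eq_self]
      intro x hx
      rwa [one_mul]
    unfold nm
    rw [this, div_self hc.ne', sub_self]
  · intro g
    unfold nm
    rw [ct_inv]
  · intro g h
    unfold nm
    have h1 : (ct g X X : ℝ) + ct h X X ≤ ct (g * h) X X + X.card := by
      exact_mod_cast ct_mul g h X
    have h2 : ((ct g X X : ℝ) + ct h X X) / X.card ≤ (ct (g * h) X X + X.card) / X.card :=
      div_le_div_of_nonneg_right h1 hc.le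
    rw [add_div, add_div, div_self hc.ne'] at h2
    linarith
  · intro g h
    unfold nm
    rw [ct_conj hX hX]

open Classical in
/-- the trivial norm -/
noncomputable def tn (g : Γ) : ℝ := if g = 1 then 0 else 1

theorem tn_nr : Nr (tn : Γ → ℝ) := by
  classical
  refine ⟨by simp [tn], fun g => by simp [tn], ?_, ?_⟩
  · intro g h
    unfold tn
    by_cases hg : g = 1
    · subst hg; simp
    · by_cases hh : h = 1
      · subst hh; simp
      · rw [if_neg hg, if_neg hh]
        split_ifs <;> norm_num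
  · intro g h
    unfold tn
    have : h * g * h⁻¹ = 1 ↔ g = 1 := by
      constructor
      · intro h1
        have h2 : h * g = h := by
          have := congrArg (· * h) h1
          simpa using this
        exact mul_left_cancel (h2.trans (mul_one h).symm)
      · rintro rfl; group
    simp only [this]

/-- separated sets -/
theorem sep {ν : Γ → ℝ} (hν : Nr ν) [Fintype Γ] (P Q : Finset Γ) (r c : ℝ)
    (hr : 0 ≤ r) (hc : ∀ z ∈ P, c ≤ ((Q.filter fun x => ν (z⁻¹ * x) ≤ r).card : ℝ)) :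
    ∃ Z ⊆ P, (Z.card : ℝ) * c ≤ Q.card ∧ (∀ z ∈ P, ∃ z' ∈ Z, ν (z'⁻¹ * z) ≤ 2 * r) ∧
      ∀ z ∈ Z, ∀ z' ∈ Z, z ≠ z' → 2 * r < ν (z⁻¹ * z') := by
  classical
  obtain ⟨S, hS⟩ : ∃ S : Finset Γ → Prop, S = fun Z => ∀ z ∈ Z, ∀ z' ∈ Z, z ≠ z' →
      2 * r < ν (z⁻¹ * z') := ⟨_, rfl⟩
  obtain ⟨Z, hZ, hmax⟩ := Finset.exists_max_image (P.powerset.filter S) Finset.card
    ⟨∅, by
      rw [mem_filter]
      refine ⟨empty_mem_powerset _, ?_⟩
      rw [hS]
      intro u hu
      simp at hu⟩
  rw [mem_filter, mem_powerset] at hZ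
  obtain ⟨hZP, hZS⟩ := hZ
  rw [hS] at hZS
  refine ⟨Z, hZP, ?_, ?_, hZS⟩
  · have h1 : ∑ z ∈ Z, c ≤ ∑ z ∈ Z, ((Q.filter fun x => ν (z⁻¹ * x) ≤ r).card : ℝ) :=
      sum_le_sum fun z hz => hc z (hZP hz)
    rw [sum_const, nsmul_eq_mul] at h1
    refine h1.trans ?_
    have h2 : ∑ z ∈ Z, (Q.filter fun x => ν (z⁻¹ * x) ≤ r).card =
        (Z.biUnion fun z => Q.filter fun x => ν (z⁻¹ * x) ≤ r).card := by
      rw [card_biUnion]
      intro z hz z' hz' hne
      change Disjoint (Q.filter fun x => ν (z⁻¹ * x) ≤ r) (Q.filter fun x => ν (z'⁻¹ * x) ≤ r)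
      rw [disjoint_left]
      intro x hx hx'
      rw [mem_filter] at hx hx'
      have h3 := hZS z hz z' hz' hne
      have h4 := hν.tri z x z'
      have h5 := hν.symm x z'
      linarith [hx.2, hx'.2]
    have h3 : (Z.biUnion fun z => Q.filter fun x => ν (z⁻¹ * x) ≤ r).card ≤ Q.card := by
      apply card_le_card
      intro x hx
      obtain ⟨z, _, hx⟩ := mem_biUnion.1 hx
      exact (mem_filter.1 hx).1
    rw [← h2] at h3
    exact_mod_cast h3
  · intro z hz
    by_contra hcon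
    push Not at hcon
    have hzZ : z ∉ Z := by
      intro h
      have := hcon z h
      rw [inv_mul_cancel, hν.one] at this
      linarith
    have h1 : insert z Z ∈ P.powerset.filter S := by
      rw [mem_filter, mem_powerset]
      refine ⟨insert_subset hz hZP, ?_⟩
      rw [hS]
      intro u hu v hv huv
      rw [mem_insert] at hu hv
      rcases hu with rfl | hu
      · rcases hv with rfl | hv
        · exact absurd rfl huv
        · rw [hν.symm]
          exact hcon v hv
      · rcases hv with rfl | hv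
        · exact hcon u hu
        · exact hZS u hu v hv huv
    have h2 := hmax _ h1
    rw [card_insert_of_notMem hzZ] at h2
    omega

end

end Pool.Agent.H57.NC
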