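import Pool.Agent.H57.NC.Spread

/-!
# Colouring, and the theorem for normal Cayley graphs
-/

set_option autoImplicit false

open Finset

namespace Pool.Agent.H57.NC

open Pool.Agent.W259.GS (Sh)

open Classical in
/-- few separated points in a ball -/
theorem deg_bound {Γ : Type} [Group Γ] [Fintype Γ] {A : Finset Γ} {κ K : ℝ} {ν : Γ → ℝ}
    (hν : St A κ K ν) (hκ : 0 < κ) (hκ2 : κ ≤ 1 / 64) (Y : Finset Γ)
    (hY : ∀ z ∈ Y, ∀ z' ∈ Y, z ≠ z' → 2 * κ < ν (z⁻¹ * z')) (w : Γ)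
    (hw : ∀ z ∈ Y, ν (w⁻¹ * z) ≤ 3 / 16) : (Y.card : ℝ) ≤ K := by
  obtain ⟨B, hB⟩ : ∃ B : Finset Γ, B = (univ : Finset Γ).filter fun g => ν g ≤ κ := ⟨_, rfl⟩
  have hdbl := hν.dbl
  rw [← hB] at hdbl
  have hB0 : (0 : ℝ) < B.card := by
    have : (1 : Γ) ∈ B := by
      rw [hB, mem_filter]
      exact ⟨mem_univ _, by rw [hν.nr.one]; exact hκ.le⟩
    exact_mod_cast card_pos.2 ⟨_, this⟩
  have h1 : Y.card * B.card ≤ ((univ : Finset Γ).filter fun g => ν g ≤ 1 / 4).card := by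
    rw [← card_product]
    refine card_le_card_of_injOn (fun p : Γ × Γ => w⁻¹ * (p.1 * p.2)) ?_ ?_
    · rintro ⟨z, g⟩ hp
      rw [mem_coe, mem_product] at hp
      obtain ⟨hz, hg⟩ := hp
      simp only at hz hg
      rw [hB, mem_filter] at hg
      rw [mem_coe, mem_filter]
      refine ⟨mem_univ _, ?_⟩
      have h2 := hν.nr.mul (w⁻¹ * z) g
      rw [mul_assoc] at h2
      have h3 := hw z hz
      simp only
      linarith [hg.2]
    · rintro ⟨z, g⟩ hp ⟨z', g'⟩ hp' h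
      rw [mem_coe, mem_product] at hp hp'
      obtain ⟨hz, hg⟩ := hp
      obtain ⟨hz', hg'⟩ := hp'
      simp only at hz hg hz' hg'
      have h2 : z * g = z' * g' := mul_left_cancel h
      have h3 : z = z' := by
        by_contra hne
        have h4 := hY z hz z' hz' hne
        have h5 : z⁻¹ * z' = g * g'⁻¹ := by
          have : z' = z * g * g'⁻¹ := by rw [h2]; group
          rw [this]; group
        rw [h5] at h4
        have h6 := hν.nr.mul g g'⁻¹
        rw [hν.nr.inv] at h6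
        rw [hB, mem_filter] at hg hg'
        linarith [hg.2, hg'.2]
      subst h3
      rw [mul_left_cancel h2]
  have h2 : (Y.card : ℝ) * B.card ≤ K * B.card := by
    refine le_trans ?_ hdbl
    exact_mod_cast h1
  exact le_of_mul_le_mul_right h2 hB0

open Classical in
/-- colouring of the edges in the directions of one ball -/
theorem colour {Γ : Type} [Group Γ] [Fintype Γ] {A : Finset Γ} {κ K : ℝ} {ν : Γ → ℝ}
    (hν : St A κ K ν) (hκ : 0 < κ) (hκ2 : κ ≤ 1 / 64) (y : Γ) :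
    ∃ c : Γ → Fin (⌊2 * K⌋₊ + 1), ∀ x x', x⁻¹ * x' ∈ A → ν (y⁻¹ * (x⁻¹ * x')) ≤ 1 / 8 →
      c x ≠ c x' := by
  obtain ⟨Z, -, -, hZc, hZs⟩ := sep hν.nr (univ : Finset Γ) (univ : Finset Γ) κ 0 hκ.le
    (fun z _ => Nat.cast_nonneg _)
  choose! φ hφ1 hφ2 using fun z => hZc z (mem_univ z)
  obtain ⟨R, hR⟩ : ∃ R : Γ → Γ → Prop, R = fun z z' => z ∈ Z ∧ z' ∈ Z ∧
    (ν (y⁻¹ * (z⁻¹ * z')) ≤ 3 / 16 ∨ ν (y⁻¹ * (z'⁻¹ * z)) ≤ 3 / 16) := ⟨_, rfl⟩
  obtain ⟨c, hc⟩ := Pool.Agent.TH346.LG.greedy R (by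
      intro x x' h
      rw [hR] at h ⊢
      exact ⟨h.2.1, h.1, h.2.2.symm⟩) (⌊2 * K⌋₊ + 1) (by
      intro z Y hY
      have hYR : ∀ z' ∈ Y, z' ∈ Z ∧
          (ν (y⁻¹ * (z⁻¹ * z')) ≤ 3 / 16 ∨ ν (y⁻¹ * (z'⁻¹ * z)) ≤ 3 / 16) := by
        intro z' hz'
        have := hY z' hz'
        rw [hR] at this
        exact this.2
      rw [Nat.lt_succ_iff]
      apply Nat.le_floor
      have h1 := deg_bound hν hκ hκ2 (Y.filter fun z' => ν (y⁻¹ * (z⁻¹ * z')) ≤ 3 / 16) (by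
        intro a ha b hb hab
        exact hZs a (hYR a (mem_filter.1 ha).1).1 b (hYR b (mem_filter.1 hb).1).1 hab) (z * y) (by
        intro z' hz'
        have := (mem_filter.1 hz').2
        rwa [mul_inv_rev, mul_assoc])
      have h2 := deg_bound hν hκ hκ2 (Y.filter fun z' => ν (y⁻¹ * (z'⁻¹ * z)) ≤ 3 / 16) (by
        intro a ha b hb hab
        exact hZs a (hYR a (mem_filter.1 ha).1).1 b (hYR b (mem_filter.1 hb).1).1 hab)
        (z * y⁻¹) (by
        intro z' hz'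
        have h3 := (mem_filter.1 hz').2
        have h4 : ν ((z * y⁻¹)⁻¹ * z') = ν (y⁻¹ * (z'⁻¹ * z)) := by
          rw [← hν.nr.inv (y⁻¹ * (z'⁻¹ * z))]
          have h5 : (y⁻¹ * (z'⁻¹ * z))⁻¹ = z⁻¹ * z' * y := by group
          rw [h5, hν.nr.comm (z⁻¹ * z') y]
          congr 1
          group
        rw [h4]
        exact h3)
      have h3 : Y ⊆ (Y.filter fun z' => ν (y⁻¹ * (z⁻¹ * z')) ≤ 3 / 16) ∪
          (Y.filter fun z' => ν (y⁻¹ * (z'⁻¹ * z)) ≤ 3 / 16) := by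
        intro z' hz'
        rw [mem_union, mem_filter, mem_filter]
        rcases (hYR z' hz').2 with h | h
        · left; exact ⟨hz', h⟩
        · right; exact ⟨hz', h⟩
      have h4 : (Y.card : ℝ) ≤ (Y.filter fun z' => ν (y⁻¹ * (z⁻¹ * z')) ≤ 3 / 16).card +
          (Y.filter fun z' => ν (y⁻¹ * (z'⁻¹ * z)) ≤ 3 / 16).card := by
        exact_mod_cast (card_le_card h3).trans (card_union_le _ _)
      linarith)
  refine ⟨fun x => c (φ x), ?_⟩
  intro x x' hxA hxν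
  apply hc
  · intro h
    have h1 := hν.sepa _ hxA
    have h2 := hν.nr.tri x (φ x) x'
    have h3 := hφ2 x
    have h4 := hφ2 x'
    rw [hν.nr.symm x (φ x)] at h2
    rw [← h] at h4
    linarith
  · rw [hR]
    refine ⟨hφ1 x, hφ1 x', Or.inl ?_⟩
    have h5 : y⁻¹ * ((φ x)⁻¹ * φ x') = y⁻¹ * ((φ x)⁻¹ * x) * (y⁻¹)⁻¹ *
        (y⁻¹ * (x⁻¹ * x')) * (x'⁻¹ * φ x') := by group
    rw [h5]
    have h6 := hν.nr.mul (y⁻¹ * ((φ x)⁻¹ * x) * (y⁻¹)⁻¹ * (y⁻¹ * (x⁻¹ * x'))) (x'⁻¹ * φ x')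
    have h7 := hν.nr.mul (y⁻¹ * ((φ x)⁻¹ * x) * (y⁻¹)⁻¹) (y⁻¹ * (x⁻¹ * x'))
    rw [hν.nr.conj] at h7
    have h8 := hφ2 x
    have h9 := hφ2 x'
    rw [hν.nr.symm (φ x') x'] at h9
    linarith

/-- a covered connection set gives a colourable graph -/
theorem colourable {Γ : Type} [Group Γ] [Fintype Γ] {A : Finset Γ} (hA : Cn A) {κ K N : ℝ}
    (hκ : 0 < κ) (hκ2 : κ ≤ 1 / 64) (hcov : Cov A κ K N (1 / 8) A) :
    (cay (A : Set Γ)).Colorable ((⌊2 * K⌋₊ + 1) ^ ⌊N⌋₊) := by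
  classical
  obtain ⟨S, h1, h2, h3⟩ := hcov
  have hc : ∀ p : Γ × (Γ → ℝ), p ∈ S → ∃ c : Γ → Fin (⌊2 * K⌋₊ + 1), ∀ x x', x⁻¹ * x' ∈ A →
      p.2 (p.1⁻¹ * (x⁻¹ * x')) ≤ 1 / 8 → c x ≠ c x' :=
    fun p hp => colour (h2 p hp) hκ hκ2 p.1
  choose! c hc using hc
  let col : (cay (A : Set Γ)).Coloring (↥S → Fin (⌊2 * K⌋₊ + 1)) :=
    SimpleGraph.Coloring.mk (fun x p => c p.1 x) (by
      intro x x' hxx h
      rw [cay_adj hA] at hxx
      obtain ⟨p, hp, h4⟩ := h3 _ hxx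
      exact hc p hp x x' hxx h4 (congrFun h ⟨p, hp⟩))
  have h4 := col.colorable
  rw [Fintype.card_fun, Fintype.card_fin, Fintype.card_coe] at h4
  refine h4.mono ?_
  apply Nat.pow_le_pow_right (by omega)
  exact Nat.le_floor h1

/-- the theorem for symmetric conjugation-invariant sets -/
theorem gs_cn {m : ℕ} (F : SimpleGraph (Fin m)) (hF : F.IsAcyclic) :
    ∃ C : ℕ, ∀ (Γ : Type) [Group Γ] [Fintype Γ] (A : Finset Γ), Cn A →
      (cay (A : Set Γ)).CliqueFree 4 → IsEmpty (F ↪g cay (A : Set Γ)) →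
      (cay (A : Set Γ)).Colorable C := by
  classical
  obtain ⟨T, hT, ⟨e⟩⟩ := Pool.Agent.H367R3.forest_in_tree F hF
  obtain ⟨par, f, hf, hfn, hpar, hadj⟩ := Pool.Agent.K4H78.TW.tree_order m (Fin (m + 1)) T hT
    (by simp)
  obtain ⟨N₀, hN₀⟩ := Pool.Agent.W259.GS.noShatter F hF.colorable_two 4
  obtain ⟨κ, N, K, hκ, hκ2, hcov⟩ := covered m par hpar N₀
  refine ⟨(⌊2 * K⌋₊ + 1) ^ ⌊N⌋₊, ?_⟩
  intro Γ _ _ A hA hK hemp
  apply colourable hA hκ hκ2
  apply hcov Γ A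
  refine ⟨hA, hK, fun Y hY => hN₀ Γ _ Y hK hemp hY, ?_⟩
  rintro ⟨w, hw⟩
  have hinj : ∀ x y, f x < f y → w (f x) ≠ w (f y) := by
    intro x y hxy h
    have := (hw (f x) (f y) hxy (by have := hfn y; omega)).2.2
    apply this
    rw [h, inv_mul_cancel]
    exact Set.mem_singleton _
  have hadj' : ∀ x y, f x < f y → ((cay (A : Set Γ)).Adj (w (f x)) (w (f y)) ↔ T.Adj x y) := by
    intro x y hxy
    rw [cay_adj hA, hadj x y hxy]
    have := hw (f x) (f y) hxy (by have := hfn y; omega)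
    constructor
    · intro h
      by_contra h2
      exact this.2.1 h2 h
    · exact this.1
  let g : T ↪g cay (A : Set Γ) :=
    { toFun := fun v => w (f v)
      inj' := by
        intro x y hxy
        rcases lt_trichotomy (f x) (f y) with h | h | h
        · exact absurd hxy (hinj x y h)
        · exact hf h
        · exact absurd hxy.symm (hinj y x h)
      map_rel_iff' := by
        intro x y
        show (cay (A : Set Γ)).Adj (w (f x)) (w (f y)) ↔ T.Adj x y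
        rcases lt_trichotomy (f x) (f y) with h | h | h
        · exact hadj' x y h
        · rw [hf h]; simp
        · rw [SimpleGraph.adj_comm, hadj' y x h, T.adj_comm] }
  exact hemp.false (e.trans g)

/-- the theorem for conjugation-invariant sets -/
theorem gs_normal {m : ℕ} (F : SimpleGraph (Fin m)) (hF : F.IsAcyclic) :
    ∃ C : ℕ, ∀ (Γ : Type) [Group Γ] [Finite Γ] (A : Set Γ), (∀ a ∈ A, ∀ h : Γ, h * a * h⁻¹ ∈ A) →
      (SimpleGraph.mulCayley A).CliqueFree 4 → IsEmpty (F ↪g SimpleGraph.mulCayley A) →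
      (SimpleGraph.mulCayley A).Colorable C := by
  classical
  obtain ⟨C, hC⟩ := gs_cn F hF
  refine ⟨C, ?_⟩
  intro Γ _ _ A hA hK hemp
  have : Fintype Γ := Fintype.ofFinite Γ
  obtain ⟨A', hA'⟩ : ∃ A' : Finset Γ, A' = (univ : Finset Γ).filter fun a =>
    a ≠ 1 ∧ (a ∈ A ∨ a⁻¹ ∈ A) := ⟨_, rfl⟩
  have hcn : Cn A' := by
    refine ⟨?_, ?_, ?_⟩
    · rw [hA', mem_filter]; simp
    · intro a ha
      rw [hA', mem_filter] at ha ⊢
      refine ⟨mem_univ _, ?_, ?_⟩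
      · rw [Ne, inv_eq_one]; exact ha.2.1
      · rw [inv_inv]; exact ha.2.2.symm
    · intro a ha h
      rw [hA', mem_filter] at ha ⊢
      refine ⟨mem_univ _, ?_, ?_⟩
      · intro h1
        apply ha.2.1
        have h2 : h * a = h := by
          have := congrArg (· * h) h1
          simpa using this
        exact mul_left_cancel (h2.trans (mul_one h).symm)
      · rcases ha.2.2 with h1 | h1
        · exact Or.inl (hA a h1 h)
        · right
          have h2 : (h * a * h⁻¹)⁻¹ = h * a⁻¹ * h⁻¹ := by group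
          rw [h2]
          exact hA _ h1 h
  have heq : cay (A' : Set Γ) = SimpleGraph.mulCayley A := by
    ext x y
    rw [cay_adj hcn, SimpleGraph.mulCayley_adj', hA', mem_filter]
    constructor
    · rintro ⟨-, h1, h2⟩
      refine ⟨?_, ?_⟩
      · rintro rfl
        apply h1
        rw [inv_mul_cancel]
      · rcases h2 with h2 | h2
        · exact ⟨_, h2, Or.inl (by group)⟩
        · exact ⟨_, h2, Or.inr (by group)⟩
    · rintro ⟨h1, g, hg, h2⟩
      refine ⟨mem_univ _, ?_, ?_⟩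
      · intro h3
        apply h1
        exact (inv_mul_eq_one.1 h3)
      · rcases h2 with rfl | rfl
        · left; simpa using hg
        · right; simpa using hg
  have := hC Γ A' hcn (by rw [heq]; exact hK) (by rw [heq]; exact hemp)
  rwa [heq] at this

end Pool.Agent.H57.NC
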