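import Pool.Agent.H57.NC.Base

/-!
# Trees in Cayley graphs: growth step, cores, sets of candidates
-/

set_option autoImplicit false

open Finset

namespace Pool.Agent.H57.NC

section
variable {Γ : Type} [Group Γ]

/-- the tree with vertices `0, …, k` and parents `par` is embedded, no quotient is in `V` -/
def Tr (A : Finset Γ) (par : ℕ → ℕ) (k : ℕ) (V : Set Γ) : Prop :=
  ∃ w : ℕ → Γ, ∀ i j, i < j → j ≤ k → (par j = i → (w i)⁻¹ * w j ∈ A) ∧
    (par j ≠ i → (w i)⁻¹ * w j ∉ A) ∧ (w i)⁻¹ * w j ∉ V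

theorem tr_zero (A : Finset Γ) (par : ℕ → ℕ) (V : Set Γ) : Tr A par 0 V :=
  ⟨fun _ => 1, fun i j h1 h2 => by omega⟩

open Classical in
/-- one more vertex -/
theorem tr_step {A : Finset Γ} (par : ℕ → ℕ) (hpar : ∀ i, 1 ≤ i → par i < i)
    (m k : ℕ) (hk : k + 1 ≤ m) (V V' : Set Γ) (X : Finset Γ) (hXne : X.Nonempty)
    (hXA : X ⊆ A) (hXV : ∀ b ∈ X, b ∉ V) (hinv : ∀ v ∈ V', v⁻¹ ∈ V')
    (hVV : V ⊆ V')
    (hz : ∀ z, z ∉ V' → (m + 1) * (X.filter fun b => z * b ∈ A ∨ z * b ∈ V).card < X.card)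
    (h : Tr A par k V') : Tr A par (k + 1) V := by
  obtain ⟨w, hw⟩ := h
  obtain ⟨p, hp⟩ : ∃ p, p = par (k + 1) := ⟨_, rfl⟩
  have hpk : p < k + 1 := by rw [hp]; exact hpar _ (by omega)
  have hdiff : ∀ l, l ≤ k → l ≠ p → (w l)⁻¹ * w p ∉ V' := by
    intro l hl hlp
    rcases lt_or_gt_of_ne hlp with h1 | h1
    · exact (hw l p h1 (by omega)).2.2
    · intro h2
      have h3 := hinv _ h2
      have h4 : ((w l)⁻¹ * w p)⁻¹ = (w p)⁻¹ * w l := by group
      rw [h4] at h3
      exact (hw p l h1 hl).2.2 h3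
  obtain ⟨bad, hbad⟩ : ∃ bad : ℕ → Finset Γ, bad = fun l =>
    X.filter fun b => (w l)⁻¹ * w p * b ∈ A ∨ (w l)⁻¹ * w p * b ∈ V := ⟨_, rfl⟩
  have hcard : (((range (k + 1)).erase p).biUnion bad).card < X.card := by
    have h1 : (((range (k + 1)).erase p).biUnion bad).card ≤
        ∑ l ∈ (range (k + 1)).erase p, (bad l).card := card_biUnion_le
    have h2 : ∀ l ∈ (range (k + 1)).erase p, (m + 1) * (bad l).card ≤ X.card := by
      intro l hl
      rw [mem_erase, mem_range] at hl
      rw [hbad]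
      exact (hz _ (hdiff l (by omega) hl.1)).le
    have h3 := sum_le_sum h2
    rw [← mul_sum, sum_const, smul_eq_mul, card_erase_of_mem (mem_range.2 hpk), card_range,
      Nat.add_sub_cancel] at h3
    have h4 : (m + 1) * (((range (k + 1)).erase p).biUnion bad).card ≤ k * X.card :=
      (Nat.mul_le_mul_left _ h1).trans h3
    have h5 : k * X.card < (m + 1) * X.card := by
      apply Nat.mul_lt_mul_of_pos_right (by omega) hXne.card_pos
    exact lt_of_mul_lt_mul_left (h4.trans_lt h5) (Nat.zero_le _)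
  obtain ⟨b, hbX, hb⟩ : ∃ b ∈ X, b ∉ ((range (k + 1)).erase p).biUnion bad := by
    by_contra hcon
    push Not at hcon
    exact absurd (card_le_card hcon) (not_le.2 hcard)
  have hbad' : ∀ l, l ≤ k → l ≠ p → (w l)⁻¹ * w p * b ∉ A ∧ (w l)⁻¹ * w p * b ∉ V := by
    intro l hl hlp
    constructor
    · intro h1
      apply hb
      rw [mem_biUnion]
      refine ⟨l, mem_erase.2 ⟨hlp, mem_range.2 (by omega)⟩, ?_⟩
      rw [hbad]
      exact mem_filter.2 ⟨hbX, Or.inl h1⟩
    · intro h1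
      apply hb
      rw [mem_biUnion]
      refine ⟨l, mem_erase.2 ⟨hlp, mem_range.2 (by omega)⟩, ?_⟩
      rw [hbad]
      exact mem_filter.2 ⟨hbX, Or.inr h1⟩
  refine ⟨Function.update w (k + 1) (w p * b), ?_⟩
  intro i j hij hj
  have hi : i ≠ k + 1 := by omega
  rw [Function.update_of_ne hi]
  by_cases hjk : j = k + 1
  · subst hjk
    rw [Function.update_self]
    by_cases hip : i = p
    · subst hip
      have h1 : (w i)⁻¹ * (w i * b) = b := by group
      rw [h1, ← hp]
      exact ⟨fun _ => hXA hbX, fun h2 => absurd rfl h2, hXV b hbX⟩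
    · have h1 : (w i)⁻¹ * (w p * b) = (w i)⁻¹ * w p * b := by group
      rw [h1, ← hp]
      obtain ⟨h2, h3⟩ := hbad' i (by omega) hip
      exact ⟨fun h4 => absurd h4.symm hip, fun _ => h2, h3⟩
  · rw [Function.update_of_ne hjk]
    obtain ⟨h1, h2, h3⟩ := hw i j hij (by omega)
    exact ⟨h1, h2, fun h4 => h3 (hVV h4)⟩

end

open Classical in
/-- cores of dense relations -/
theorem core {α : Type} (X : Finset α) (R : α → α → Prop) (hR : ∀ x y, R x y → R y x)
    (ε : ℝ) (hX : X.Nonempty)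
    (hd : ε * (X.card : ℝ) ^ 2 ≤ ∑ x ∈ X, ((X.filter fun y => R x y).card : ℝ)) :
    ∃ S ⊆ X, S.Nonempty ∧ ∀ x ∈ S, ε / 2 * X.card ≤ ((S.filter fun y => R x y).card : ℝ) := by
  obtain ⟨f, hf⟩ : ∃ f : Finset α → ℝ, f = fun S =>
    ∑ x ∈ S, ((S.filter fun y => R x y).card : ℝ) - ε * X.card * S.card := ⟨_, rfl⟩
  obtain ⟨S, hS, hmax⟩ := Finset.exists_max_image (X.powerset.filter fun S => S.Nonempty) f
    ⟨X, by rw [mem_filter, mem_powerset]; exact ⟨Subset.refl _, hX⟩⟩
  rw [mem_filter, mem_powerset] at hS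
  obtain ⟨hSX, hSne⟩ := hS
  refine ⟨S, hSX, hSne, ?_⟩
  intro x hx
  by_contra hcon
  push Not at hcon
  have hfX : 0 ≤ f X := by
    rw [hf]
    have : ε * (X.card : ℝ) * X.card = ε * (X.card : ℝ) ^ 2 := by ring
    simp only [this]
    linarith
  have hfS : f X ≤ f S := hmax X (by rw [mem_filter, mem_powerset]; exact ⟨Subset.refl _, hX⟩)
  have h1 : ∑ a ∈ S, ((S.filter fun y => R a y).card : ℝ) ≤
      ∑ a ∈ S.erase x, (((S.erase x).filter fun y => R a y).card : ℝ) +
        2 * ((S.filter fun y => R x y).card : ℝ) := by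
    rw [← add_sum_erase _ _ hx]
    have h2 : ∀ a ∈ S.erase x, ((S.filter fun y => R a y).card : ℝ) ≤
        (((S.erase x).filter fun y => R a y).card : ℝ) + if R a x then 1 else 0 := by
      intro a _
      have h3 : (S.filter fun y => R a y) ⊆
          ((S.erase x).filter fun y => R a y) ∪ (if R a x then {x} else ∅) := by
        intro y hy
        rw [mem_filter] at hy
        rw [mem_union]
        by_cases hyx : y = x
        · right
          subst hyx
          rw [if_pos hy.2]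
          exact mem_singleton_self _
        · left
          rw [mem_filter, mem_erase]
          exact ⟨⟨hyx, hy.1⟩, hy.2⟩
      have h4 := (card_le_card h3).trans (card_union_le _ _)
      by_cases hax : R a x
      · rw [if_pos hax, card_singleton] at h4
        rw [if_pos hax]
        exact_mod_cast h4
      · rw [if_neg hax, card_empty] at h4
        rw [if_neg hax]
        simpa using (by exact_mod_cast h4 : ((S.filter fun y => R a y).card : ℝ) ≤
          (((S.erase x).filter fun y => R a y).card : ℝ) + 0)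
    have h5 := sum_le_sum h2
    rw [sum_add_distrib] at h5
    have h6 : ∑ a ∈ S.erase x, (if R a x then (1 : ℝ) else 0) ≤
        ((S.filter fun y => R x y).card : ℝ) := by
      rw [← sum_filter, sum_const, nsmul_eq_mul, mul_one]
      have : ((S.erase x).filter fun a => R a x) ⊆ S.filter fun y => R x y := by
        intro a ha
        rw [mem_filter, mem_erase] at ha
        rw [mem_filter]
        exact ⟨ha.1.2, hR _ _ ha.2⟩
      exact_mod_cast card_le_card this
    linarith
  have hce : ((S.erase x).card : ℝ) = S.card - 1 := by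
    rw [card_erase_of_mem hx, Nat.cast_sub (Nat.succ_le_of_lt hSne.card_pos)]
    simp
  have h7 : f S < f (S.erase x) := by
    rw [hf]
    simp only
    rw [hce]
    nlinarith
  by_cases hne : (S.erase x).Nonempty
  · have := hmax (S.erase x) (by
      rw [mem_filter, mem_powerset]
      exact ⟨(erase_subset _ _).trans hSX, hne⟩)
    linarith
  · rw [not_nonempty_iff_eq_empty] at hne
    rw [hne] at h7
    have : f ∅ = 0 := by rw [hf]; simp
    linarith

open Classical in
/-- sets of candidates in a neighbourhood -/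
theorem cand {Γ : Type} [Group Γ] {A : Finset Γ} (hA : Cn A)
    (hK : (cay (A : Set Γ)).CliqueFree 4) (N : Finset Γ) (hN : N ⊆ A) (m : ℕ) (T s : ℝ)
    (hT0 : 0 ≤ T) (h1 : s + m ≤ T) (h2 : s + m * (T + 1) ≤ N.card) :
    ∃ Q ⊆ N, ∀ J ⊆ Q, J.card ≤ m →
      s ≤ ((Q.filter fun y => ∀ j ∈ J, j⁻¹ * y ∉ A ∧ j ≠ y).card : ℝ) := by
  by_cases hc : ∃ y ∈ N, T ≤ ((N.filter fun z => y⁻¹ * z ∈ A).card : ℝ)
  · obtain ⟨y, hy, hT⟩ := hc
    refine ⟨N.filter fun z => y⁻¹ * z ∈ A, filter_subset _ _, ?_⟩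
    intro J hJ hJm
    obtain ⟨Q, hQ⟩ : ∃ Q, Q = N.filter fun z => y⁻¹ * z ∈ A := ⟨_, rfl⟩
    rw [← hQ] at hJ hT ⊢
    have hind : ∀ a ∈ Q, ∀ b ∈ Q, a⁻¹ * b ∉ A := by
      intro a ha b hb hab
      rw [hQ, mem_filter] at ha hb
      have hadj : ∀ x z : Γ, x⁻¹ * z ∈ A → (cay (A : Set Γ)).Adj x z :=
        fun x z h => (cay_adj hA x z).2 h
      have e1 : (cay (A : Set Γ)).Adj 1 y := hadj _ _ (by simpa using hN hy)
      have e2 : (cay (A : Set Γ)).Adj 1 a := hadj _ _ (by simpa using hN ha.1)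
      have e3 : (cay (A : Set Γ)).Adj 1 b := hadj _ _ (by simpa using hN hb.1)
      have e4 := hadj y a ha.2
      have e5 := hadj y b hb.2
      have e6 := hadj a b hab
      have e7 : (cay (A : Set Γ)).IsNClique 3 {y, a, b} :=
        SimpleGraph.is3Clique_iff.2 ⟨y, a, b, e4, e5, e6, rfl⟩
      refine hK _ (e7.insert (a := 1) ?_)
      intro c hc
      simp only [mem_insert, mem_singleton] at hc
      rcases hc with rfl | rfl | rfl
      · exact e1
      · exact e2
      · exact e3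
    have h3 : Q \ J ⊆ Q.filter fun y => ∀ j ∈ J, j⁻¹ * y ∉ A ∧ j ≠ y := by
      intro z hz
      rw [mem_sdiff] at hz
      rw [mem_filter]
      refine ⟨hz.1, fun j hj => ⟨hind j (hJ hj) z hz.1, ?_⟩⟩
      rintro rfl
      exact hz.2 hj
    have h4 := card_le_card h3
    rw [card_sdiff_of_subset hJ] at h4
    have h5 : (Q.card : ℝ) - J.card ≤ ((Q.filter fun y => ∀ j ∈ J, j⁻¹ * y ∉ A ∧ j ≠ y).card : ℝ) := by
      have h6 : Q.card ≤ (Q.filter fun y => ∀ j ∈ J, j⁻¹ * y ∉ A ∧ j ≠ y).card + J.card := by omega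
      have h7 : (Q.card : ℝ) ≤ (Q.filter fun y => ∀ j ∈ J, j⁻¹ * y ∉ A ∧ j ≠ y).card + J.card := by
        exact_mod_cast h6
      linarith
    have h8 : (J.card : ℝ) ≤ m := by exact_mod_cast hJm
    linarith
  · push Not at hc
    refine ⟨N, Subset.refl _, ?_⟩
    intro J hJ hJm
    obtain ⟨B, hB⟩ : ∃ B : Finset Γ, B = J.biUnion fun j =>
      insert j (N.filter fun z => j⁻¹ * z ∈ A) := ⟨_, rfl⟩
    have h3 : N \ B ⊆ N.filter fun y => ∀ j ∈ J, j⁻¹ * y ∉ A ∧ j ≠ y := by
      intro z hz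
      rw [mem_sdiff] at hz
      rw [mem_filter]
      refine ⟨hz.1, fun j hj => ⟨?_, ?_⟩⟩
      · intro h4
        apply hz.2
        rw [hB, mem_biUnion]
        exact ⟨j, hj, mem_insert_of_mem (mem_filter.2 ⟨hz.1, h4⟩)⟩
      · rintro rfl
        apply hz.2
        rw [hB, mem_biUnion]
        exact ⟨j, hj, mem_insert_self _ _⟩
    have h4 : (B.card : ℝ) ≤ m * (T + 1) := by
      have h5 : (B.card : ℝ) ≤ ∑ j ∈ J, ((insert j (N.filter fun z => j⁻¹ * z ∈ A)).card : ℝ) := by
        rw [hB]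
        exact_mod_cast card_biUnion_le
      have h6 : ∑ j ∈ J, ((insert j (N.filter fun z => j⁻¹ * z ∈ A)).card : ℝ) ≤
          ∑ j ∈ J, (T + 1) := by
        apply sum_le_sum
        intro j hj
        have h7 := hc j (hJ hj)
        have h8 := card_insert_le j (N.filter fun z => j⁻¹ * z ∈ A)
        have h9 : ((insert j (N.filter fun z => j⁻¹ * z ∈ A)).card : ℝ) ≤
          (N.filter fun z => j⁻¹ * z ∈ A).card + 1 := by exact_mod_cast h8
        linarith
      rw [sum_const, nsmul_eq_mul] at h6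
      have h7 : (J.card : ℝ) * (T + 1) ≤ m * (T + 1) :=
        mul_le_mul_of_nonneg_right (by exact_mod_cast hJm) (by linarith)
      linarith
    have h5 := card_le_card h3
    have h6 := card_sdiff_add_card N B
    have h7 : N.card ≤ (N \ B).card + B.card := by
      have := card_le_card (subset_union_left : N ⊆ N ∪ B)
      omega
    have h8 : (N.card : ℝ) ≤ ((N.filter fun y => ∀ j ∈ J, j⁻¹ * y ∉ A ∧ j ≠ y).card : ℝ) +
        B.card := by
      have : N.card ≤ (N.filter fun y => ∀ j ∈ J, j⁻¹ * y ∉ A ∧ j ≠ y).card + B.card := by omega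
      exact_mod_cast this
    linarith

end Pool.Agent.H57.NC
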