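import Pool.Agent.H57.NC.Pos

/-!
# Most pairs are heavy
-/

set_option autoImplicit false

open Finset

namespace Pool.Agent.H57.NC

/-- extension of a labelling -/
def ex {Γ : Type} [Group Γ] {m : ℕ} (l : Fin (m + 1) → Γ) (i : ℕ) : Γ :=
  if h : i < m + 1 then l ⟨i, h⟩ else 1

theorem ex_of {Γ : Type} [Group Γ] {m : ℕ} (l : Fin (m + 1) → Γ) (i : ℕ) (h : i < m + 1) :
    ex l i = l ⟨i, h⟩ := dif_pos h

theorem ex_update {Γ : Type} [Group Γ] {m : ℕ} (l : Fin (m + 1) → Γ) (j : ℕ) (h : j < m + 1)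
    (y : Γ) : ex (Function.update l ⟨j, h⟩ y) = Function.update (ex l) j y := by
  funext i
  by_cases hi : i < m + 1
  · rw [ex_of _ i hi]
    by_cases hij : i = j
    · subst hij
      rw [Function.update_self, Function.update_self]
    · rw [Function.update_of_ne hij, Function.update_of_ne (by
        intro h1
        exact hij (by simpa using h1)), ex_of _ i hi]
  · have hij : i ≠ j := by rintro rfl; exact hi h
    rw [Function.update_of_ne hij]
    unfold ex
    rw [dif_neg hi, dif_neg hi]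

open Classical in
/-- pairs with few common neighbours whose product is in a translate of `A` -/
theorem pairs_bound {Γ : Type} [Group Γ] {A X : Finset Γ} (hX : Cn X)
    (β : ℝ) (h1 : 1 ≤ β * X.card)
    (hs : ∀ z : Γ, (ct z X (A \ X) : ℝ) ≤ β * X.card) (g : Γ) :
    (((X ×ˢ X).filter fun ab : Γ × Γ => (ct (ab.1 * ab.2) X X : ℝ) < β * X.card ∧
      (g * (ab.1 * ab.2) ∈ A ∨ g * (ab.1 * ab.2) = 1)).card : ℝ) ≤ 3 * β * (X.card : ℝ) ^ 2 := by
  obtain ⟨P1, hP1⟩ : ∃ P1 : Finset (Γ × Γ), P1 = (X ×ˢ X).filter fun ab : Γ × Γ =>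
    (ct (ab.1 * ab.2) X X : ℝ) < β * X.card ∧ g * (ab.1 * ab.2) ∈ X := ⟨_, rfl⟩
  obtain ⟨P2, hP2⟩ : ∃ P2 : Finset (Γ × Γ), P2 = (X ×ˢ X).filter fun ab : Γ × Γ =>
    g * (ab.1 * ab.2) ∈ A \ X := ⟨_, rfl⟩
  obtain ⟨P3, hP3⟩ : ∃ P3 : Finset (Γ × Γ), P3 = (X ×ˢ X).filter fun ab : Γ × Γ =>
    g * (ab.1 * ab.2) = 1 := ⟨_, rfl⟩
  have hsub : ((X ×ˢ X).filter fun ab : Γ × Γ => (ct (ab.1 * ab.2) X X : ℝ) < β * X.card ∧
      (g * (ab.1 * ab.2) ∈ A ∨ g * (ab.1 * ab.2) = 1)) ⊆ P1 ∪ (P2 ∪ P3) := by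
    intro ab hab
    rw [mem_filter] at hab
    obtain ⟨h2, h3, h4⟩ := hab
    rw [mem_union, mem_union, hP1, hP2, hP3, mem_filter, mem_filter, mem_filter, mem_sdiff]
    by_cases h5 : g * (ab.1 * ab.2) ∈ X
    · left; exact ⟨h2, h3, h5⟩
    · right
      rcases h4 with h4 | h4
      · left; exact ⟨h2, h4, h5⟩
      · right; exact ⟨h2, h4⟩
  have hn : (0 : ℝ) ≤ X.card := Nat.cast_nonneg _
  -- first part
  have hb1 : (P1.card : ℝ) ≤ β * (X.card : ℝ) ^ 2 := by
    have h2 : P1.card = ∑ t ∈ X, (P1.filter fun ab => g * (ab.1 * ab.2) = t).card := by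
      apply card_eq_sum_card_fiberwise
      intro ab hab
      rw [mem_coe, hP1, mem_filter] at hab
      exact hab.2.2
    have h3 : ∀ t ∈ X, ((P1.filter fun ab => g * (ab.1 * ab.2) = t).card : ℝ) ≤ β * X.card := by
      intro t _
      by_cases hne : (P1.filter fun ab => g * (ab.1 * ab.2) = t).Nonempty
      · obtain ⟨ab, hab⟩ := hne
        rw [mem_filter, hP1, mem_filter] at hab
        obtain ⟨⟨_, h4, _⟩, h5⟩ := hab
        have h6 : ab.1 * ab.2 = g⁻¹ * t := by rw [← h5]; group
        rw [h6, ← ct_inv] at h4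
        refine le_trans ?_ h4.le
        have h7 : (P1.filter fun ab => g * (ab.1 * ab.2) = t).card ≤
            ct (g⁻¹ * t)⁻¹ X X := by
          refine card_le_card_of_injOn (fun ab => ab.1) ?_ ?_
          · intro cd hcd
            rw [mem_coe, mem_filter, hP1, mem_filter, mem_product] at hcd
            obtain ⟨⟨⟨h8, h9⟩, _, _⟩, h10⟩ := hcd
            rw [mem_coe, mem_filter]
            refine ⟨h8, ?_⟩
            have h11 : (g⁻¹ * t)⁻¹ * cd.1 = cd.2⁻¹ := by rw [← h10]; group
            simp only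
            rw [h11]
            exact hX.inv _ h9
          · intro cd hcd cd' hcd' hcc
            rw [mem_coe, mem_filter] at hcd hcd'
            have h8 : g * (cd.1 * cd.2) = g * (cd'.1 * cd'.2) := hcd.2.trans hcd'.2.symm
            have h9 : cd.1 = cd'.1 := hcc
            rw [h9] at h8
            have h10 := mul_left_cancel (mul_left_cancel h8)
            exact Prod.ext h9 h10
        exact_mod_cast h7
      · rw [not_nonempty_iff_eq_empty] at hne
        rw [hne]
        simp only [card_empty, Nat.cast_zero]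
        linarith
    have h4 : (P1.card : ℝ) = ∑ t ∈ X, ((P1.filter fun ab => g * (ab.1 * ab.2) = t).card : ℝ) := by
      exact_mod_cast h2
    rw [h4]
    refine (sum_le_sum h3).trans ?_
    rw [sum_const, nsmul_eq_mul]
    apply le_of_eq; ring
  have fib : ∀ P : Finset (Γ × Γ), (∀ ab ∈ P, ab.1 ∈ X) → (∀ a ∈ X,
      ((P.filter fun ab => ab.1 = a).card : ℝ) ≤ β * X.card) →
      (P.card : ℝ) ≤ β * (X.card : ℝ) ^ 2 := by
    intro P hPX hPc
    have h2 : P.card = ∑ a ∈ X, (P.filter fun ab => ab.1 = a).card :=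
      card_eq_sum_card_fiberwise hPX
    have h4 : (P.card : ℝ) = ∑ a ∈ X, ((P.filter fun ab => ab.1 = a).card : ℝ) := by
      exact_mod_cast h2
    rw [h4]
    refine (sum_le_sum hPc).trans ?_
    rw [sum_const, nsmul_eq_mul]
    apply le_of_eq; ring
  have hb2 : (P2.card : ℝ) ≤ β * (X.card : ℝ) ^ 2 := by
    apply fib
    · intro ab hab
      rw [hP2, mem_filter, mem_product] at hab
      exact hab.1.1
    · intro a _
      refine le_trans ?_ (hs (g * a))
      have h7 : (P2.filter fun ab => ab.1 = a).card ≤ ct (g * a) X (A \ X) := by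
        refine card_le_card_of_injOn (fun ab => ab.2) ?_ ?_
        · intro cd hcd
          rw [mem_coe, mem_filter, hP2, mem_filter, mem_product] at hcd
          obtain ⟨⟨⟨h8, h9⟩, h10⟩, h11⟩ := hcd
          rw [mem_coe, mem_filter]
          refine ⟨h9, ?_⟩
          simp only
          rw [← h11, mul_assoc]
          exact h10
        · intro cd hcd cd' hcd' hcc
          rw [mem_coe, mem_filter] at hcd hcd'
          exact Prod.ext (hcd.2.trans hcd'.2.symm) hcc
      exact_mod_cast h7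
  have hb3 : (P3.card : ℝ) ≤ β * (X.card : ℝ) ^ 2 := by
    apply fib
    · intro ab hab
      rw [hP3, mem_filter, mem_product] at hab
      exact hab.1.1
    · intro a _
      refine le_trans ?_ h1
      have h7 : (P3.filter fun ab => ab.1 = a).card ≤ 1 := by
        rw [card_le_one]
        intro cd hcd cd' hcd'
        rw [mem_filter, hP3, mem_filter] at hcd hcd'
        have h8 : g * (cd.1 * cd.2) = g * (cd'.1 * cd'.2) := hcd.1.2.trans hcd'.1.2.symm
        have h9 : cd.1 = cd'.1 := hcd.2.trans hcd'.2.symm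
        rw [h9] at h8
        exact Prod.ext h9 (mul_left_cancel (mul_left_cancel h8))
      exact_mod_cast h7
  have h2 := (card_le_card hsub).trans ((card_union_le _ _).trans
    (Nat.add_le_add_left (card_union_le _ _) _))
  have h3 : ((((X ×ˢ X).filter fun ab : Γ × Γ => (ct (ab.1 * ab.2) X X : ℝ) < β * X.card ∧
      (g * (ab.1 * ab.2) ∈ A ∨ g * (ab.1 * ab.2) = 1)).card : ℕ) : ℝ) ≤
      P1.card + (P2.card + P3.card) := by exact_mod_cast h2
  linarith

end Pool.Agent.H57.NC
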