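import Pool.Agent.H57.NC.Col

/-!
# The Gyárfás–Sumner conjecture for normal Cayley graphs of arbitrary finite groups, clique number 3

For every forest `F` there is a constant `C` such that for every finite group `Γ`, subgroup `H` and
set `A ⊆ Γ` for which `A ∩ H` is invariant under conjugation by the elements of `H` (nothing is
assumed on the rest of `A`), the Cayley graph of `Γ` with connection set `A` is `C [Γ : H]`-colourable
if it contains neither `K₄` nor an induced `F`.

For `H = Γ` these are the normal Cayley graphs, in which `A` is a union of conjugacy classes: they are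
`C`-colourable.  The starting result `AbelianCayley` (abelian groups, clique number at most `3`) is the
case in which `Γ` is abelian and `H = Γ`, and the groups with an abelian subgroup of bounded index are
the case in which `H` is abelian.  Here no commutativity is assumed: for example `Γ = H` may be any
finite simple group.

Proof.  It is enough to consider `H = Γ`.  Let `T` be a tree with `m` edges containing `F`, `A`
symmetric.  For a conjugation-invariant symmetric `X ⊆ A` let `ν_X(g) = |g X \ X| / |X|`, a
conjugation-invariant norm on `Γ`.

1. (Growth.)  Let `V ⊆ V'` be symmetric sets, `X' ⊆ A \ V` not empty, and let `V'` contain all `z` such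
   that `z b ∈ A ∪ V` for a proportion `1 / (m + 1)` of the `b ∈ X'`.  If the first `k` edges of `T`
   are embedded in `A` such that no quotient of two vertices is in `V'`, then one more edge can be
   embedded such that no quotient is in `V`.  So after `m` steps from `V = {1}` either `T` is an
   induced subgraph or `A ⊆ V`.
2. The sets `V` are conjugation-invariant and covered by boundedly many translates of small balls of
   norms `ν` with `|{ν ≤ 1/4}| ≤ K |{ν ≤ κ}|` and `ν ≥ 1/2` on `A`.  If `X = A \ V` has a positive
   proportion in one translate of such a ball, then `X'` is this part, and the new `V'` is covered by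
   translates of the same balls (packing, and `ν(x y) = ν(y x)`).
3. Otherwise `X' = X`, and the new norm is `ν_X`.  Call a pair `(x, y) ∈ X²` light if
   `|X ∩ x y X| < β |X|`.  If a positive proportion of the pairs is light, then there is a core
   `S ⊆ X` in which every element is in many light pairs, and a random labelling of the edges of `T`
   by elements of `S`, such that consecutive labels form light pairs and siblings are not adjacent
   (here neighbourhoods without triangles are used), gives an induced copy of `T`: the quotient of two
   vertices that are not siblings is a product whose last or first two factors form a light pair.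
   So most pairs are heavy, most products of elements of `X` are in a set of `O(|X|)` elements, and as
   the neighbourhoods have bounded Vapnik–Chervonenkis dimension the packing lemma gives
   `|X| = O(|{ν_X ≤ κ}|)`.
4. `ν_X ≥ 1/2` on `A`: otherwise there is `s ∈ X` with `a s, a⁻¹ s ∈ X`, and `1, a, s, a s` is a clique.
5. So `A` is covered by boundedly many translates `y {ν ≤ 1/8}`.  The group is divided into regions
   contained in balls of radius `2 κ`; no edge is inside a region and the regions joined by an edge
   with direction in `y {ν ≤ 1/8}` form a graph of bounded degree.  The product of the colourings is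
   a proper colouring.
-/

namespace Pool.Agent.H57.NC.Main

theorem result :
    ∀ (m : ℕ) (F : SimpleGraph (Fin m)), F.IsAcyclic → ∃ C : ℕ,
      ∀ (Γ : Type) [Group Γ] [Finite Γ] (H : Subgroup Γ) (A : Set Γ),
        (∀ a ∈ A, a ∈ H → ∀ h ∈ H, h * a * h⁻¹ ∈ A) →
        (SimpleGraph.mulCayley A).CliqueFree 4 →
        ¬ F.IsIndContained (SimpleGraph.mulCayley A) →
        (SimpleGraph.mulCayley A).Colorable (C * H.index) := by
  intro m F hF
  obtain ⟨C, hC⟩ := Pool.Agent.H57.NC.gs_normal F hF
  refine ⟨C, ?_⟩
  · intro Γ _ _ H A hA hK hind
    classical
    obtain ⟨B, hB⟩ : ∃ B : Set H, B = {a : H | (a : Γ) ∈ A} := ⟨_, rfl⟩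
    have hadj : ∀ (g : Γ) (x y : H), (SimpleGraph.mulCayley B).Adj x y ↔
        (SimpleGraph.mulCayley A).Adj (g * x) (g * y) := by
      intro g x y
      rw [SimpleGraph.mulCayley_adj', SimpleGraph.mulCayley_adj', hB]
      constructor
      · rintro ⟨h1, a, ha, h2⟩
        refine ⟨?_, (a : Γ), ha, ?_⟩
        · intro h3
          exact h1 (Subtype.ext (mul_left_cancel h3))
        · rcases h2 with rfl | rfl
          · left; simp [mul_assoc]
          · right; simp [mul_assoc]
      · rintro ⟨h1, a, ha, h2⟩
        refine ⟨?_, ?_⟩
        · rintro rfl; exact h1 rfl
        · rcases h2 with h2 | h2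
          · have h3 : (x : Γ) * a = y := by
              rw [mul_assoc] at h2
              exact mul_left_cancel h2
            have h4 : a ∈ H := by
              have : a = (x : Γ)⁻¹ * y := by rw [← h3]; group
              rw [this]
              exact H.mul_mem (H.inv_mem x.2) y.2
            exact ⟨⟨a, h4⟩, ha, Or.inl (Subtype.ext h3)⟩
          · have h3 : (x : Γ) = y * a := by
              rw [mul_assoc] at h2
              exact mul_left_cancel h2
            have h4 : a ∈ H := by
              have : a = (y : Γ)⁻¹ * x := by rw [h3]; group
              rw [this]
              exact H.mul_mem (H.inv_mem y.2) x.2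
            exact ⟨⟨a, h4⟩, ha, Or.inr (Subtype.ext h3)⟩
    let e : SimpleGraph.mulCayley B ↪g SimpleGraph.mulCayley A :=
      { toFun := fun x => (1 : Γ) * (x : Γ)
        inj' := by
          intro x y h
          exact Subtype.ext (mul_left_cancel h)
        map_rel_iff' := by
          intro x y
          exact (hadj 1 x y).symm }
    have hBcol : (SimpleGraph.mulCayley B).Colorable C := by
      apply hC H B
      · intro a ha h
        rw [hB] at ha ⊢
        exact hA _ ha a.2 _ h.2
      · exact SimpleGraph.CliqueFree.comap ⟨e.toCopy⟩ hK
      · exact ⟨fun f => hind ⟨f.trans e⟩⟩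
    obtain ⟨c⟩ := hBcol
    have : Fintype (Γ ⧸ H) := Fintype.ofFinite _
    have hmem : ∀ x : Γ, ((x : Γ ⧸ H).out)⁻¹ * x ∈ H := by
      intro x
      rw [← QuotientGroup.eq]
      exact Quotient.out_eq' _
    let col : (SimpleGraph.mulCayley A).Coloring (Fin C × (Γ ⧸ H)) :=
      SimpleGraph.Coloring.mk (fun x => (c ⟨((x : Γ ⧸ H).out)⁻¹ * x, hmem x⟩, (x : Γ ⧸ H))) (by
        intro x y hxy h
        rw [Prod.mk.injEq] at h
        obtain ⟨h1, h2⟩ := h
        refine c.valid ?_ h1
        rw [hadj ((x : Γ ⧸ H).out)]
        simp only
        rw [mul_inv_cancel_left]
        have h3 : (x : Γ ⧸ H).out * ((y : Γ ⧸ H).out⁻¹ * y) = y := by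
          rw [h2, mul_inv_cancel_left]
        rw [h3]
        exact hxy)
    have h4 := col.colorable
    rw [Fintype.card_prod, Fintype.card_fin] at h4
    have h5 : Fintype.card (Γ ⧸ H) = H.index := by
      rw [Subgroup.index, Nat.card_eq_fintype_card]
    rwa [h5] at h4

end Pool.Agent.H57.NC.Main
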