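import Pool.Agent.H57.NC.Emb

/-!
# Labelled trees: positions, ancestors, counting
-/

set_option autoImplicit false

open Finset

namespace Pool.Agent.H57.NC

/-- the vertices of a labelled tree in a group -/
def pos {Γ : Type} [Group Γ] (par : ℕ → ℕ) (lam : ℕ → Γ) (i : ℕ) : Γ :=
  if _h : par i < i then pos par lam (par i) * lam i else 1
termination_by i

theorem pos_par {Γ : Type} [Group Γ] (par : ℕ → ℕ) (lam : ℕ → Γ) (i : ℕ) (hi : par i < i) :
    pos par lam i = pos par lam (par i) * lam i := by
  rw [pos, dif_pos hi]

theorem pos_root {Γ : Type} [Group Γ] (par : ℕ → ℕ) (lam : ℕ → Γ) (i : ℕ) (hi : ¬ par i < i) :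
    pos par lam i = 1 := by
  rw [pos, dif_neg hi]

/-- ancestors -/
inductive An (par : ℕ → ℕ) : ℕ → ℕ → Prop
  | refl (i : ℕ) : An par i i
  | step {j i : ℕ} : par i < i → An par j (par i) → An par j i

theorem An.le {par : ℕ → ℕ} {j i : ℕ} (h : An par j i) : j ≤ i := by
  induction h with
  | refl => exact le_rfl
  | step h1 _ ih => omega

theorem An.of_ne {par : ℕ → ℕ} {j i : ℕ} (h : An par j i) (hne : j ≠ i) : An par j (par i) := by
  cases h with
  | refl => exact absurd rfl hne
  | step _ h2 => exact h2

theorem An.par {par : ℕ → ℕ} {v u : ℕ} (h : An par v u) (hv : par v < v) : An par (par v) u := by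
  induction h with
  | refl => exact An.step hv (An.refl _)
  | step h1 _ ih => exact An.step h1 ih

theorem An.zero {par : ℕ → ℕ} (hpar : ∀ i, 1 ≤ i → par i < i) : ∀ i, An par 0 i := by
  intro i
  induction i using Nat.strong_induction_on with
  | _ i ih =>
    rcases Nat.eq_zero_or_pos i with rfl | hi
    · exact An.refl _
    · exact An.step (hpar i hi) (ih _ (hpar i hi))

theorem An.sib {par : ℕ → ℕ} {u v : ℕ} (h1 : An par (par v) u) (h2 : An par (par u) v)
    (huv : par v ≠ u) (hvu : par u ≠ v) : par u = par v := by
  have h3 := (h1.of_ne huv).le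
  have h4 := (h2.of_ne hvu).le
  omega

theorem pos_congr {Γ : Type} [Group Γ] (par : ℕ → ℕ) (lam lam' : ℕ → Γ) : ∀ i,
    (∀ j, An par j i → lam j = lam' j) → pos par lam i = pos par lam' i := by
  intro i
  induction i using Nat.strong_induction_on with
  | _ i ih =>
    intro h
    by_cases hi : par i < i
    · rw [pos_par par lam i hi, pos_par par lam' i hi, h i (An.refl _),
        ih _ hi fun j hj => h j (An.step hi hj)]
    · rw [pos_root par lam i hi, pos_root par lam' i hi]

open Classical in
/-- one coordinate -/
theorem count_one {ι Γ : Type} [Fintype ι] [DecidableEq ι] (X : Finset Γ) (G G' : Finset (ι → Γ))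
    (j : ι) (hG : ∀ l ∈ G, l j ∈ X) :
    ∑ l ∈ G, (X.filter fun y => Function.update l j y ∈ G').card ≤ G'.card * X.card := by
  rw [← card_sigma, ← card_product]
  refine card_le_card_of_injOn (fun p : (Σ _ : ι → Γ, Γ) => (Function.update p.1 j p.2, p.1 j))
    ?_ ?_
  · intro p hp
    rw [mem_coe, mem_sigma, mem_filter] at hp
    rw [mem_coe, mem_product]
    exact ⟨hp.2.2, hG _ hp.1⟩
  · rintro ⟨l, y⟩ _ ⟨l', y'⟩ _ h
    simp only [Prod.mk.injEq] at h
    obtain ⟨h1, h2⟩ := h
    have h3 : y = y' := by
      have := congrFun h1 j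
      rwa [Function.update_self, Function.update_self] at this
    have h4 : l = l' := by
      funext i
      by_cases hi : i = j
      · rw [hi]; exact h2
      · have := congrFun h1 i
        rwa [Function.update_of_ne hi, Function.update_of_ne hi] at this
    rw [h3, h4]

open Classical in
/-- two coordinates -/
theorem count_two {ι Γ : Type} [Fintype ι] [DecidableEq ι] (X : Finset Γ) (B : Finset (ι → Γ))
    (p v : ι) (hpv : p ≠ v) (hB : ∀ l ∈ B, ∀ i, l i ∈ X) (c : ℕ)
    (hc : ∀ l : ι → Γ, (∀ i, l i ∈ X) → ((X ×ˢ X).filter fun ab =>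
      Function.update (Function.update l p ab.1) v ab.2 ∈ B).card ≤ c) :
    B.card * X.card ^ 2 ≤ X.card ^ (Fintype.card ι) * c := by
  have h1 : (Fintype.piFinset fun _ : ι => X).card = X.card ^ (Fintype.card ι) := by
    rw [Fintype.card_piFinset, prod_const, card_univ]
  have h2 : ∑ l ∈ Fintype.piFinset fun _ : ι => X, ((X ×ˢ X).filter fun ab =>
      Function.update (Function.update l p ab.1) v ab.2 ∈ B).card ≤
      X.card ^ (Fintype.card ι) * c := by
    rw [← h1, ← smul_eq_mul, ← sum_const]
    apply sum_le_sum
    intro l hl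
    rw [Fintype.mem_piFinset] at hl
    exact hc l hl
  refine le_trans ?_ h2
  rw [pow_two, ← card_product, ← card_product, ← card_sigma]
  refine card_le_card_of_injOn (fun q : (ι → Γ) × (Γ × Γ) =>
    (⟨Function.update (Function.update q.1 p q.2.1) v q.2.2, (q.1 p, q.1 v)⟩ :
      (Σ _ : ι → Γ, Γ × Γ))) ?_ ?_
  · rintro ⟨l, s, t⟩ hq
    rw [mem_coe, mem_product, mem_product] at hq
    obtain ⟨hl, hs, ht⟩ := hq
    simp only at hl hs ht
    rw [mem_coe, mem_sigma, mem_filter, mem_product, Fintype.mem_piFinset]
    refine ⟨?_, ⟨hB l hl p, hB l hl v⟩, ?_⟩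
    · intro i
      simp only
      by_cases hi : i = v
      · rw [hi, Function.update_self]; exact ht
      · rw [Function.update_of_ne hi]
        by_cases hi' : i = p
        · rw [hi', Function.update_self]; exact hs
        · rw [Function.update_of_ne hi']; exact hB l hl i
    · simp only
      convert hl using 1
      funext i
      by_cases hi : i = v
      · rw [hi, Function.update_self]
      · rw [Function.update_of_ne hi]
        by_cases hi' : i = p
        · rw [hi', Function.update_self]
        · rw [Function.update_of_ne hi', Function.update_of_ne hi, Function.update_of_ne hi']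
  · rintro ⟨l, s, t⟩ _ ⟨l', s', t'⟩ _ h
    simp only [Sigma.mk.injEq, heq_eq_eq, Prod.mk.injEq] at h
    obtain ⟨h1, h2, h3⟩ := h
    have h4 : t = t' := by
      have := congrFun h1 v
      rwa [Function.update_self, Function.update_self] at this
    have h5 : s = s' := by
      have := congrFun h1 p
      rwa [Function.update_of_ne hpv, Function.update_of_ne hpv, Function.update_self,
        Function.update_self] at this
    have h6 : l = l' := by
      funext i
      by_cases hi : i = p
      · rw [hi]; exact h2
      · by_cases hi' : i = v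
        · rw [hi']; exact h3
        · have := congrFun h1 i
          rwa [Function.update_of_ne hi', Function.update_of_ne hi', Function.update_of_ne hi,
            Function.update_of_ne hi] at this
    rw [h4, h5, h6]

end Pool.Agent.H57.NC
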