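import Pool.Agent.H57.NC.Stage

/-!
# The spread case, and the growth of the exceptional set
-/

set_option autoImplicit false

open Finset

namespace Pool.Agent.H57.NC

open Pool.Agent.W259.GS (Sh)

/-- near-periods are not in `A` -/
theorem nm_sepa {Γ : Type} [Group Γ] {A X : Finset Γ} (hA : Cn A)
    (hK : (cay (A : Set Γ)).CliqueFree 4) (hXA : X ⊆ A) (hne : X.Nonempty) :
    ∀ a ∈ A, 1 / 2 ≤ nm X a := by
  classical
  intro a ha
  by_contra hcon
  push Not at hcon
  have hn : (0 : ℝ) < X.card := by exact_mod_cast hne.card_pos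
  unfold nm at hcon
  have h1 : (X.card : ℝ) / 2 < ct a X X := by
    have h2 : 1 / 2 < (ct a X X : ℝ) / X.card := by linarith
    rw [lt_div_iff₀ hn] at h2
    linarith
  have h2 : (X.card : ℝ) / 2 < ct a⁻¹ X X := by rw [ct_inv]; exact h1
  obtain ⟨P, hP⟩ : ∃ P : Finset Γ, P = X.filter fun b => a * b ∈ X := ⟨_, rfl⟩
  obtain ⟨Q, hQ⟩ : ∃ Q : Finset Γ, Q = X.filter fun b => a⁻¹ * b ∈ X := ⟨_, rfl⟩
  have h3 : (X.card : ℝ) / 2 < P.card := by
    have : ct a X X = P.card := by rw [hP]; rfl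
    rw [← this]; exact h1
  have h4 : (X.card : ℝ) / 2 < Q.card := by
    have : ct a⁻¹ X X = Q.card := by rw [hQ]; rfl
    rw [← this]; exact h2
  have h5 : (P ∪ Q).card ≤ X.card := by
    apply card_le_card
    rw [hP, hQ]
    exact union_subset (filter_subset _ _) (filter_subset _ _)
  have h6 := card_union_add_card_inter P Q
  have h7 : 0 < (P ∩ Q).card := by
    have h8 : X.card < P.card + Q.card := by
      have : (X.card : ℝ) < P.card + Q.card := by linarith
      exact_mod_cast this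
    omega
  obtain ⟨s, hs⟩ := card_pos.1 h7
  rw [mem_inter, hP, hQ, mem_filter, mem_filter] at hs
  obtain ⟨⟨hs1, hs2⟩, -, hs3⟩ := hs
  have hadj : ∀ x z : Γ, x⁻¹ * z ∈ A → (cay (A : Set Γ)).Adj x z :=
    fun x z h => (cay_adj hA x z).2 h
  have e1 : (cay (A : Set Γ)).Adj 1 a := hadj _ _ (by simpa using ha)
  have e2 : (cay (A : Set Γ)).Adj 1 s := hadj _ _ (by simpa using hXA hs1)
  have e3 : (cay (A : Set Γ)).Adj 1 (a * s) := hadj _ _ (by simpa using hXA hs2)
  have e4 : (cay (A : Set Γ)).Adj a s := hadj _ _ (hXA hs3)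
  have e5 : (cay (A : Set Γ)).Adj a (a * s) := hadj _ _ (by simpa using hXA hs1)
  have e6 : (cay (A : Set Γ)).Adj s (a * s) := by
    apply hadj
    have := hA.conj a ha s⁻¹
    rwa [inv_inv, mul_assoc] at this
  have e7 : (cay (A : Set Γ)).IsNClique 3 {a, s, a * s} :=
    SimpleGraph.is3Clique_iff.2 ⟨a, s, a * s, e4, e5, e6, rfl⟩
  refine hK _ (e7.insert (a := 1) ?_)
  intro c hc
  simp only [mem_insert, mem_singleton] at hc
  rcases hc with rfl | rfl | rfl
  · exact e1
  · exact e2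
  · exact e3

open Classical in
/-- the spread case -/
theorem stage_spread {Γ : Type} [Group Γ] [Fintype Γ] {A V : Finset Γ} (hA : Cn A) (hV : Nv V)
    (hK4 : (cay (A : Set Γ)).CliqueFree 4)
    (m : ℕ) (κ K K₁ N r : ℝ) (hκ : 0 < κ) (hκ2 : κ ≤ 1 / (8 * (m + 1))) (hr : 2 * κ ≤ r)
    (hK₁ : 0 < K₁)
    (hcov : Cov A κ K N r V) (hne : (A \ V).Nonempty)
    (hsp : ∀ z, (ct z (A \ V) V : ℝ) ≤ 1 / (4 * (m + 1)) * (A \ V).card)
    (hnear : ((A \ V).card : ℝ) ≤
      K₁ * (((univ : Finset Γ).filter fun g => nm (A \ V) g ≤ κ).card : ℝ)) :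
    ∃ V' : Finset Γ, Nx A m V V' ∧
      Cov A κ (max K (2 * K₁)) (N + 8 * (m + 1) * K₁) (4 * r) V' := by
  obtain ⟨X, hX⟩ : ∃ X, X = A \ V := ⟨_, rfl⟩
  rw [← hX] at hnear hsp hne
  have hXcn : Cn X := by rw [hX]; exact cn_sdiff hA hV
  have hXA : X ⊆ A := by rw [hX]; exact sdiff_subset
  have hn : (0 : ℝ) < X.card := by exact_mod_cast hne.card_pos
  have hm1 : (0 : ℝ) < (m : ℝ) + 1 := by positivity
  have hnr := nm_nr hne hXcn.conj
  obtain ⟨c, hc⟩ : ∃ c : ℝ, c = 1 / (4 * (m + 1)) := ⟨_, rfl⟩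
  rw [← hc] at hsp
  have hc0 : 0 < c := by rw [hc]; positivity
  have hκc : κ ≤ c / 2 := by
    have : c / 2 = 1 / (8 * (m + 1)) := by rw [hc]; field_simp; norm_num
    rw [this]; exact hκ2
  obtain ⟨P, hP⟩ : ∃ P : Finset Γ, P = (univ : Finset Γ).filter fun z =>
    c * X.card ≤ (ct z X X : ℝ) := ⟨_, rfl⟩
  obtain ⟨Q, hQ⟩ : ∃ Q : Finset Γ, Q = (univ : Finset Γ).filter fun z =>
    c / 2 * X.card ≤ (ct z X X : ℝ) := ⟨_, rfl⟩
  obtain ⟨B, hB⟩ : ∃ B : Finset Γ, B = (univ : Finset Γ).filter fun g => nm X g ≤ κ := ⟨_, rfl⟩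
  rw [← hB] at hnear
  have hB0 : (0 : ℝ) < B.card := by
    by_contra hcon
    push Not at hcon
    nlinarith
  have hQc : (Q.card : ℝ) * (c / 2) ≤ X.card := by
    have h1 := pop_card X (c / 2)
    rw [← hQ] at h1
    have h2 : (Q.card : ℝ) * (c / 2) * X.card ≤ X.card * X.card := by
      calc (Q.card : ℝ) * (c / 2) * X.card = Q.card * (c / 2 * X.card) := by ring
        _ ≤ _ := h1
        _ = _ := by ring
    exact le_of_mul_le_mul_right h2 hn
  obtain ⟨Z, hZP, hZc, hZ, -⟩ := sep hnr P Q κ B.card hκ.le (by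
    intro z hz
    have h1 : B.card ≤ (Q.filter fun x => nm X (z⁻¹ * x) ≤ κ).card := by
      refine card_le_card_of_injOn (fun g => z * g) ?_ ?_
      · intro g hg
        rw [mem_coe, hB, mem_filter] at hg
        rw [mem_coe, mem_filter, hQ, mem_filter]
        refine ⟨⟨mem_univ _, ?_⟩, ?_⟩
        · rw [hP, mem_filter] at hz
          have h2 := ct_mul z g X
          have h3 : (ct z X X : ℝ) + ct g X X ≤ ct (z * g) X X + X.card := by exact_mod_cast h2
          have h4 := hg.2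
          unfold nm at h4
          have h5 : (1 - κ) * X.card ≤ ct g X X := by
            have : 1 - κ ≤ (ct g X X : ℝ) / X.card := by linarith
            rwa [le_div_iff₀ hn] at this
          have h6 := mul_le_mul_of_nonneg_right hκc hn.le
          have h7 := hz.2
          nlinarith
        · simpa using hg.2
      · intro g _ g' _ h
        exact mul_left_cancel h
    exact_mod_cast h1)
  have hZc' : (Z.card : ℝ) ≤ 8 * (m + 1) * K₁ := by
    have h1 : (Z.card : ℝ) * B.card * (c / 2) ≤ K₁ * B.card :=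
      ((mul_le_mul_of_nonneg_right hZc (by positivity)).trans hQc).trans hnear
    have h2 : (Z.card : ℝ) * (c / 2) * B.card ≤ K₁ * B.card := by linarith
    have h3 := le_of_mul_le_mul_right h2 hB0
    have h4 : (Z.card : ℝ) * (c / 2) * (8 * (m + 1)) ≤ K₁ * (8 * (m + 1)) :=
      mul_le_mul_of_nonneg_right h3 (by positivity)
    have h5 : (Z.card : ℝ) * (c / 2) * (8 * (m + 1)) = Z.card := by
      rw [hc]; field_simp; ring
    linarith
  obtain ⟨S, hS1, hS2, hS3⟩ := hcov
  refine ⟨V ∪ P, ⟨⟨?_, ?_, ?_⟩, subset_union_left, X, hne, hXA, ?_, ?_⟩, ?_⟩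
  · exact mem_union_left _ hV.one
  · intro v hv
    rw [mem_union] at hv ⊢
    rcases hv with h | h
    · exact Or.inl (hV.inv v h)
    · right
      rw [hP, mem_filter] at h ⊢
      rw [ct_inv]
      exact ⟨mem_univ _, h.2⟩
  · intro v hv h
    rw [mem_union] at hv ⊢
    rcases hv with h1 | h1
    · exact Or.inl (hV.conj v h1 h)
    · right
      rw [hP, mem_filter] at h1 ⊢
      rw [ct_conj hXcn.conj hXcn.conj]
      exact ⟨mem_univ _, h1.2⟩
  · intro b hb
    rw [hX, mem_sdiff] at hb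
    exact hb.2
  · intro z hz
    rw [mem_union] at hz
    push Not at hz
    have h1 := hz.2
    rw [hP, mem_filter] at h1
    push Not at h1
    have h2 := h1 (mem_univ _)
    have h3 : (X.filter fun b => z * b ∈ A ∨ z * b ∈ V) ⊆
        (X.filter fun b => z * b ∈ X) ∪ (X.filter fun b => z * b ∈ V) := by
      intro b hb
      rw [mem_filter] at hb
      rw [mem_union, mem_filter, mem_filter]
      by_cases h4 : z * b ∈ V
      · right; exact ⟨hb.1, h4⟩
      · left
        refine ⟨hb.1, ?_⟩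
        rw [hX, mem_sdiff]
        exact ⟨hb.2.resolve_right h4, h4⟩
    have h4 := (card_le_card h3).trans (card_union_le _ _)
    have h5 : ((X.filter fun b => z * b ∈ A ∨ z * b ∈ V).card : ℝ) ≤ ct z X X + ct z X V := by
      unfold ct
      exact_mod_cast h4
    have h6 : ((m : ℝ) + 1) * ((X.filter fun b => z * b ∈ A ∨ z * b ∈ V).card : ℝ) <
        X.card := by
      have h7 : ((m : ℝ) + 1) * ((X.filter fun b => z * b ∈ A ∨ z * b ∈ V).card : ℝ) ≤
          ((m : ℝ) + 1) * (2 * (c * X.card)) := by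
        apply mul_le_mul_of_nonneg_left _ hm1.le
        have := hsp z
        linarith
      have h8 : ((m : ℝ) + 1) * (2 * (c * X.card)) = X.card / 2 := by
        rw [hc]; field_simp; ring
      linarith
    exact_mod_cast h6
  · refine ⟨S ∪ Z.image fun x => (x, nm X), ?_, ?_, ?_⟩
    · have h1 := (card_union_le S (Z.image fun x => (x, nm X))).trans
        (Nat.add_le_add_left card_image_le _)
      have h2 : (((S ∪ Z.image fun x => (x, nm X)).card : ℕ) : ℝ) ≤ S.card + Z.card := by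
        exact_mod_cast h1
      linarith
    · intro p hp
      rw [mem_union] at hp
      rcases hp with hp | hp
      · exact (hS2 p hp).mono (le_max_left _ _)
      · obtain ⟨x, _, rfl⟩ := mem_image.1 hp
        refine ⟨hnr, nm_sepa hA hK4 hXA hne, ?_⟩
        simp only
        rw [← hB]
        have h1 := pop_card X (3 / 4)
        have h2 : ((univ : Finset Γ).filter fun g => nm X g ≤ 1 / 4) ⊆
            (univ : Finset Γ).filter fun z => 3 / 4 * X.card ≤ (ct z X X : ℝ) := by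
          intro g hg
          rw [mem_filter] at hg ⊢
          refine ⟨mem_univ _, ?_⟩
          have h3 := hg.2
          unfold nm at h3
          have h4 : 3 / 4 ≤ (ct g X X : ℝ) / X.card := by linarith
          rwa [le_div_iff₀ hn] at h4
        have h3 : (((univ : Finset Γ).filter fun g => nm X g ≤ 1 / 4).card : ℝ) ≤
            (((univ : Finset Γ).filter fun z => 3 / 4 * X.card ≤ (ct z X X : ℝ)).card : ℝ) := by
          exact_mod_cast card_le_card h2
        have h4 : (((univ : Finset Γ).filter fun z => 3 / 4 * X.card ≤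
            (ct z X X : ℝ)).card : ℝ) * (3 / 4) * X.card ≤ X.card * X.card := by
          calc _ = (((univ : Finset Γ).filter fun z => 3 / 4 * X.card ≤
            (ct z X X : ℝ)).card : ℝ) * (3 / 4 * X.card) := by ring
            _ ≤ _ := h1
            _ = _ := by ring
        have h5 := le_of_mul_le_mul_right h4 hn
        have h6 : (((univ : Finset Γ).filter fun g => nm X g ≤ 1 / 4).card : ℝ) ≤
            2 * X.card := by linarith
        calc _ ≤ 2 * (X.card : ℝ) := h6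
          _ ≤ 2 * (K₁ * B.card) := by linarith
          _ = 2 * K₁ * B.card := by ring
          _ ≤ _ := mul_le_mul_of_nonneg_right (le_max_right _ _) hB0.le
    · intro v hv
      rw [mem_union] at hv
      rcases hv with hv | hv
      · obtain ⟨p, hp, h1⟩ := hS3 v hv
        exact ⟨p, mem_union_left _ hp, by linarith⟩
      · obtain ⟨x, hx, h1⟩ := hZ v hv
        exact ⟨(x, nm X), mem_union_right _ (mem_image.2 ⟨x, hx, rfl⟩), by
          simp only; linarith⟩

/-- standing assumptions -/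
structure Hy {Γ : Type} [Group Γ] [Fintype Γ] (m : ℕ) (par : ℕ → ℕ) (N₀ : ℕ) (A : Finset Γ) :
    Prop where
  cn : Cn A
  k4 : (cay (A : Set Γ)).CliqueFree 4
  sh : ∀ Y : Finset Γ, Sh (cay (A : Set Γ)) Y Set.univ → Y.card < N₀
  no : ¬ Tr A par m {1}

open Classical in
/-- one stage -/
theorem stage (m : ℕ) (par : ℕ → ℕ) (hpar : ∀ i, 1 ≤ i → par i < i) (N₀ : ℕ) (κ : ℝ)
    (hκ : 0 < κ) (hκ2 : κ ≤ 1 / (8 * (m + 1))) (N K r : ℝ) (hN : 1 ≤ N) (hr : 2 * κ ≤ r) :
    ∃ N' K' : ℝ, 1 ≤ N' ∧ ∀ (Γ : Type) [Group Γ] [Fintype Γ] (A : Finset Γ),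
      Hy m par N₀ A → ∀ V : Finset Γ, Nv V → Cov A κ K N r V → A ⊆ V ∨
      ∃ V' : Finset Γ, Nx A m V V' ∧ Cov A κ K' N' (4 * r) V' := by
  obtain ⟨η, K₁, hη, hK₁, hnear⟩ := near m par hpar N₀ κ hκ
  have hm1 : (0 : ℝ) < (m : ℝ) + 1 := by positivity
  have hN0 : 0 < N := by linarith
  obtain ⟨η₀, hη₀⟩ : ∃ η₀ : ℝ, η₀ = min η (1 / (4 * (m + 1))) / N := ⟨_, rfl⟩
  have hη₀0 : 0 < η₀ := by
    rw [hη₀]
    exact div_pos (lt_min hη (by positivity)) hN0
  have hNη : N * η₀ = min η (1 / (4 * (m + 1))) := by rw [hη₀]; field_simp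
  obtain ⟨N1, hN1⟩ : ∃ N1 : ℝ, N1 = N + 2 * (N * (N / (η₀ / (4 * (m + 1))))) +
    (N / (η₀ / (4 * (m + 1)))) ^ 2 := ⟨_, rfl⟩
  have hN1N : N ≤ N1 := by
    rw [hN1]
    have : 0 ≤ 2 * (N * (N / (η₀ / (4 * (m + 1))))) := by positivity
    have : 0 ≤ (N / (η₀ / (4 * (m + 1)))) ^ 2 := by positivity
    linarith
  refine ⟨max N1 (N + 8 * (m + 1) * K₁), max K (2 * K₁), le_max_of_le_left (hN.trans hN1N), ?_⟩
  intro Γ _ _ A hA V hV hcov
  by_cases hAV : A ⊆ V
  · exact Or.inl hAV
  right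
  have hne : (A \ V).Nonempty := by
    rw [sdiff_nonempty]; exact hAV
  by_cases hconc : ∃ S : Finset (Γ × (Γ → ℝ)), (S.card : ℝ) ≤ N ∧ (∀ p ∈ S, St A κ K p.2) ∧
    (∀ v ∈ V, ∃ p ∈ S, p.2 (p.1⁻¹ * v) ≤ r) ∧ ∃ p₀ ∈ S, ∃ u : Γ,
      η₀ * ((A \ V).card : ℝ) ≤ (((A \ V).filter fun b => p₀.2 (u⁻¹ * b) ≤ r).card : ℝ)
  · obtain ⟨S, h1, h2, h3, p₀, hp₀, u, hu⟩ := hconc
    obtain ⟨V', hV', hcov'⟩ := stage_conc hA.cn hV m κ K N r η₀ hN hη₀0 (by linarith) S h1 h2 h3
      hne p₀ hp₀ u hu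
    refine ⟨V', hV', hcov'.mono (le_max_left _ _) ?_ le_rfl (Subset.refl _)⟩
    rw [← hN1]
    exact le_max_left _ _
  · push Not at hconc
    obtain ⟨S, h1, h2, h3⟩ := hcov
    have h4 := hconc S h1 h2 h3
    have hsp : ∀ z, (ct z (A \ V) V : ℝ) ≤ N * η₀ * (A \ V).card := by
      intro z
      have h5 : ((A \ V).filter fun b => z * b ∈ V) ⊆ S.biUnion fun p =>
          (A \ V).filter fun b => p.2 ((z⁻¹ * p.1)⁻¹ * b) ≤ r := by
        intro b hb
        rw [mem_filter] at hb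
        obtain ⟨p, hp, h6⟩ := h3 _ hb.2
        rw [mem_biUnion]
        refine ⟨p, hp, mem_filter.2 ⟨hb.1, ?_⟩⟩
        have h7 : (z⁻¹ * p.1)⁻¹ * b = p.1⁻¹ * (z * b) := by group
        rw [h7]
        exact h6
      have h6 : (ct z (A \ V) V : ℝ) ≤ ∑ p ∈ S,
          (((A \ V).filter fun b => p.2 ((z⁻¹ * p.1)⁻¹ * b) ≤ r).card : ℝ) := by
        unfold ct
        exact_mod_cast (card_le_card h5).trans card_biUnion_le
      have h7 : ∑ p ∈ S, (((A \ V).filter fun b => p.2 ((z⁻¹ * p.1)⁻¹ * b) ≤ r).card : ℝ) ≤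
          ∑ p ∈ S, η₀ * (A \ V).card := sum_le_sum fun p hp => (h4 p hp _).le
      rw [sum_const, nsmul_eq_mul] at h7
      have h8 : (S.card : ℝ) * (η₀ * (A \ V).card) ≤ N * (η₀ * (A \ V).card) :=
        mul_le_mul_of_nonneg_right h1 (by positivity)
      linarith
    have hn : (0 : ℝ) ≤ ((A \ V).card : ℝ) := Nat.cast_nonneg _
    have hnr := hnear Γ A (A \ V) hA.cn hA.k4 hA.sh sdiff_subset (cn_sdiff hA.cn hV) hne (by
      intro z
      have h5 : ct z (A \ V) (A \ (A \ V)) ≤ ct z (A \ V) V := by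
        apply ct_mono z (Subset.refl _)
        intro x hx
        rw [mem_sdiff, mem_sdiff] at hx
        by_contra h6
        exact hx.2 ⟨hx.1, h6⟩
      have h6 : (ct z (A \ V) (A \ (A \ V)) : ℝ) ≤ ct z (A \ V) V := by exact_mod_cast h5
      refine h6.trans ((hsp z).trans ?_)
      rw [hNη]
      exact mul_le_mul_of_nonneg_right (min_le_left _ _) hn) hA.no
    obtain ⟨V', hV', hcov'⟩ := stage_spread hA.cn hV hA.k4 m κ K K₁ N r hκ hκ2 hr hK₁
      ⟨S, h1, h2, h3⟩ hne (by
        intro z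
        refine (hsp z).trans ?_
        rw [hNη]
        exact mul_le_mul_of_nonneg_right (min_le_right _ _) hn) hnr
    exact ⟨V', hV', hcov'.mono le_rfl (le_max_right _ _) le_rfl (Subset.refl _)⟩

/-- many stages -/
theorem grow (m : ℕ) (par : ℕ → ℕ) (hpar : ∀ i, 1 ≤ i → par i < i) (N₀ : ℕ) (κ : ℝ)
    (hκ : 0 < κ) (hκ2 : κ ≤ 1 / (8 * (m + 1))) : ∀ (j : ℕ), j ≤ m → ∀ (N K r : ℝ), 1 ≤ N →
    2 * κ ≤ r →
    ∃ N' K' : ℝ, 1 ≤ N' ∧ ∀ (Γ : Type) [Group Γ] [Fintype Γ] (A : Finset Γ),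
      Hy m par N₀ A → ∀ V : Finset Γ, Nv V → Cov A κ K N r V →
      Cov A κ K' N' (4 ^ j * r) A ∨ Tr A par j (V : Set Γ) := by
  intro j
  induction j with
  | zero =>
    intro _ N K r hN _
    exact ⟨N, K, hN, fun Γ _ _ A _ V _ _ => Or.inr (tr_zero A par V)⟩
  | succ j ih =>
    intro hj N K r hN hr
    have hr0 : 0 < r := by linarith
    obtain ⟨N1, K1, hN1, h1⟩ := stage m par hpar N₀ κ hκ hκ2 N K r hN hr
    obtain ⟨N2, K2, hN2, h2⟩ := ih (by omega) N1 K1 (4 * r) hN1 (by linarith)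
    refine ⟨max N N2, max K K2, le_max_of_le_left hN, ?_⟩
    intro Γ _ _ A hA V hV hcov
    rcases h1 Γ A hA V hV hcov with h3 | ⟨V', hV', hcov'⟩
    · left
      refine hcov.mono (le_max_left _ _) (le_max_left _ _) ?_ h3
      have : (1 : ℝ) ≤ 4 ^ (j + 1) := one_le_pow₀ (by norm_num)
      nlinarith
    · rcases h2 Γ A hA V' hV'.1 hcov' with h4 | h4
      · left
        refine h4.mono (le_max_right _ _) (le_max_right _ _) ?_ (Subset.refl _)
        rw [pow_succ]
        apply le_of_eq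
        ring
      · right
        obtain ⟨hNv, hVV, X', hX'1, hX'2, hX'3, hX'4⟩ := hV'
        exact tr_step par hpar m j hj (V : Set Γ) (V' : Set Γ) X' hX'1 hX'2
          (fun b hb => by simpa using hX'3 b hb) (fun v hv => by simpa using hNv.inv v (by simpa using hv))
          (by exact_mod_cast hVV) (fun z hz => by
            have := hX'4 z (by simpa using hz)
            convert this using 3
            ext b
            simp only [mem_filter, mem_coe]) h4

/-- the connection set is covered by boundedly many translates of balls -/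
theorem covered (m : ℕ) (par : ℕ → ℕ) (hpar : ∀ i, 1 ≤ i → par i < i) (N₀ : ℕ) :
    ∃ κ N K : ℝ, 0 < κ ∧ κ ≤ 1 / 64 ∧ ∀ (Γ : Type) [Group Γ] [Fintype Γ] (A : Finset Γ),
      Hy m par N₀ A → Cov A κ K N (1 / 8) A := by
  classical
  have h4 : (1 : ℝ) ≤ 4 ^ m := one_le_pow₀ (by norm_num)
  have hm4 : (m : ℝ) + 1 ≤ 4 ^ m := by
    have : m + 1 ≤ 4 ^ m := by
      induction m with
      | zero => simp
      | succ n ih =>
        have := ih (one_le_pow₀ (by norm_num))
        rw [pow_succ]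
        omega
    exact_mod_cast this
  obtain ⟨κ, hκ⟩ : ∃ κ : ℝ, κ = 1 / (64 * 4 ^ m) := ⟨_, rfl⟩
  have hκ0 : 0 < κ := by rw [hκ]; positivity
  have hκ64 : κ ≤ 1 / 64 := by
    rw [hκ]
    apply one_div_le_one_div_of_le (by norm_num)
    linarith
  have hκ2 : κ ≤ 1 / (8 * (m + 1)) := by
    rw [hκ]
    apply one_div_le_one_div_of_le (by positivity)
    linarith
  obtain ⟨N', K', hN', h1⟩ := grow m par hpar N₀ κ hκ0 hκ2 m le_rfl 1 1 (2 * κ) le_rfl le_rfl
  refine ⟨κ, N', K', hκ0, hκ64, ?_⟩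
  intro Γ _ _ A hA
  have hNv : Nv ({1} : Finset Γ) := by
    refine ⟨by simp, ?_, ?_⟩
    · intro v hv
      rw [mem_singleton] at hv ⊢
      rw [hv, inv_one]
    · intro v hv h
      rw [mem_singleton] at hv ⊢
      rw [hv]; group
  have hcov : Cov A κ 1 1 (2 * κ) ({1} : Finset Γ) := by
    refine ⟨{(1, tn)}, by simp, ?_, ?_⟩
    · intro p hp
      rw [mem_singleton] at hp
      subst hp
      refine ⟨tn_nr, ?_, ?_⟩
      · intro a ha
        have ha1 : a ≠ 1 := by rintro rfl; exact hA.cn.one ha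
        simp only [tn]
        rw [if_neg ha1]
        norm_num
      · rw [one_mul]
        simp only
        have h2 : ((univ : Finset Γ).filter fun g => (tn g : ℝ) ≤ 1 / 4) ⊆
            (univ : Finset Γ).filter fun g => (tn g : ℝ) ≤ κ := by
          intro g hg
          rw [mem_filter] at hg ⊢
          refine ⟨mem_univ _, ?_⟩
          have h3 := hg.2
          unfold tn at h3 ⊢
          by_cases hg1 : g = 1
          · rw [if_pos hg1]; exact hκ0.le
          · rw [if_neg hg1] at h3; norm_num at h3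
        exact_mod_cast card_le_card h2
    · intro v hv
      rw [mem_singleton] at hv
      subst hv
      refine ⟨(1, tn), mem_singleton_self _, ?_⟩
      simp only [inv_one, mul_one]
      rw [tn_nr.one]
      linarith
  rcases h1 Γ A hA {1} hNv hcov with h2 | h2
  · refine h2.mono le_rfl le_rfl ?_ (Subset.refl _)
    have h3 : (4 : ℝ) ^ m * (2 * κ) = 1 / 32 := by
      rw [hκ]
      field_simp
      norm_num
    rw [h3]
    norm_num
  · exfalso
    apply hA.no
    simpa using h2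

end Pool.Agent.H57.NC
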