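import Pool.Agent.H57.NC.Near

/-!
# One stage: the exceptional set is enlarged and stays covered by boundedly many balls
-/

set_option autoImplicit false

open Finset

namespace Pool.Agent.H57.NC

open Pool.Agent.W259.GS (Sh)

open Classical in
/-- a norm with many small elements, large on `A` -/
structure St {Γ : Type} [Group Γ] [Fintype Γ] (A : Finset Γ) (κ K : ℝ) (ν : Γ → ℝ) : Prop where
  nr : Nr ν
  sepa : ∀ a ∈ A, 1 / 2 ≤ ν a
  dbl : (((univ : Finset Γ).filter fun g => ν g ≤ 1 / 4).card : ℝ) ≤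
    K * (((univ : Finset Γ).filter fun g => ν g ≤ κ).card : ℝ)

theorem St.mono {Γ : Type} [Group Γ] [Fintype Γ] {A : Finset Γ} {κ K K' : ℝ} {ν : Γ → ℝ}
    (h : St A κ K ν) (hK : K ≤ K') : St A κ K' ν :=
  ⟨h.nr, h.sepa, h.dbl.trans (mul_le_mul_of_nonneg_right hK (Nat.cast_nonneg _))⟩

/-- `V` is covered by at most `N` translates of balls of radius `r` -/
def Cov {Γ : Type} [Group Γ] [Fintype Γ] (A : Finset Γ) (κ K N r : ℝ) (V : Finset Γ) : Prop :=
  ∃ S : Finset (Γ × (Γ → ℝ)), (S.card : ℝ) ≤ N ∧ (∀ p ∈ S, St A κ K p.2) ∧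
    ∀ v ∈ V, ∃ p ∈ S, p.2 (p.1⁻¹ * v) ≤ r

theorem Cov.mono {Γ : Type} [Group Γ] [Fintype Γ] {A : Finset Γ} {κ K K' N N' r r' : ℝ}
    {V V' : Finset Γ} (h : Cov A κ K N r V) (hK : K ≤ K') (hN : N ≤ N') (hr : r ≤ r')
    (hV : V' ⊆ V) : Cov A κ K' N' r' V' := by
  obtain ⟨S, h1, h2, h3⟩ := h
  refine ⟨S, h1.trans hN, fun p hp => (h2 p hp).mono hK, ?_⟩
  intro v hv
  obtain ⟨p, hp, h4⟩ := h3 v (hV hv)
  exact ⟨p, hp, h4.trans hr⟩

/-- symmetric, conjugation-invariant, contains the neutral element -/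
structure Nv {Γ : Type} [Group Γ] (V : Finset Γ) : Prop where
  one : (1 : Γ) ∈ V
  inv : ∀ v ∈ V, v⁻¹ ∈ V
  conj : ∀ v ∈ V, ∀ h : Γ, h * v * h⁻¹ ∈ V

open Classical in
/-- the result of a stage -/
def Nx {Γ : Type} [Group Γ] (A : Finset Γ) (m : ℕ) (V V' : Finset Γ) : Prop :=
  Nv V' ∧ V ⊆ V' ∧ ∃ X' : Finset Γ, X'.Nonempty ∧ X' ⊆ A ∧ (∀ b ∈ X', b ∉ V) ∧
    ∀ z, z ∉ V' → (m + 1) * (X'.filter fun b => z * b ∈ A ∨ z * b ∈ V).card < X'.card

theorem cn_sdiff {Γ : Type} [Group Γ] [DecidableEq Γ] {A V : Finset Γ} (hA : Cn A) (hV : Nv V) :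
    Cn (A \ V) := by
  refine ⟨?_, ?_, ?_⟩
  · intro h
    exact hA.one (mem_sdiff.1 h).1
  · intro a ha
    rw [mem_sdiff] at ha ⊢
    refine ⟨hA.inv a ha.1, fun h => ha.2 ?_⟩
    have := hV.inv _ h
    rwa [inv_inv] at this
  · intro a ha h
    rw [mem_sdiff] at ha ⊢
    refine ⟨hA.conj a ha.1 h, fun h1 => ha.2 ?_⟩
    have := hV.conj _ h1 h⁻¹
    convert this using 1
    group

open Classical in
/-- the concentrated case -/
theorem stage_conc {Γ : Type} [Group Γ] [Fintype Γ] {A V : Finset Γ} (hA : Cn A) (hV : Nv V)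
    (m : ℕ) (κ K N r η : ℝ) (hN : 1 ≤ N) (hη : 0 < η) (hr : 0 ≤ r)
    (S : Finset (Γ × (Γ → ℝ))) (hSN : (S.card : ℝ) ≤ N) (hS : ∀ p ∈ S, St A κ K p.2)
    (hSV : ∀ v ∈ V, ∃ p ∈ S, p.2 (p.1⁻¹ * v) ≤ r) (hne : (A \ V).Nonempty)
    (p₀ : Γ × (Γ → ℝ)) (hp₀ : p₀ ∈ S) (u : Γ)
    (hu : η * ((A \ V).card : ℝ) ≤ (((A \ V).filter fun b => p₀.2 (u⁻¹ * b) ≤ r).card : ℝ)) :
    ∃ V' : Finset Γ, Nx A m V V' ∧
      Cov A κ K (N + 2 * (N * (N / (η / (4 * (m + 1))))) + (N / (η / (4 * (m + 1)))) ^ 2)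
        (4 * r) V' := by
  obtain ⟨X, hX⟩ : ∃ X, X = A \ V := ⟨_, rfl⟩
  rw [← hX] at hu hne
  have hXcn : Cn X := by rw [hX]; exact cn_sdiff hA hV
  have hXA : X ⊆ A := by rw [hX]; exact sdiff_subset
  have hn : (0 : ℝ) < X.card := by exact_mod_cast hne.card_pos
  have hm1 : (0 : ℝ) < (m : ℝ) + 1 := by positivity
  obtain ⟨c, hc⟩ : ∃ c : ℝ, c = η / (4 * (m + 1)) := ⟨_, rfl⟩
  rw [← hc]
  have hc0 : 0 < c := by rw [hc]; positivity
  have hN0 : 0 < N := by linarith
  have hcN0 : 0 < c / N := by positivity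
  have hcN : c / N ≤ c := div_le_self hc0.le hN
  obtain ⟨M, hM⟩ : ∃ M : ℝ, M = N / c := ⟨_, rfl⟩
  rw [← hM]
  have hM0 : 0 < M := by rw [hM]; positivity
  have hp₀' := (hS p₀ hp₀).nr
  -- separated sets
  have hZ : ∀ p ∈ S, ∃ Z : Finset Γ, (Z.card : ℝ) ≤ M ∧ ∀ w,
      c / N * X.card ≤ ((X.filter fun b => p.2 (w⁻¹ * b) ≤ r).card : ℝ) →
      ∃ x ∈ Z, p.2 (x⁻¹ * w) ≤ 2 * r := by
    intro p hp
    obtain ⟨Z, -, h1, h2, -⟩ := sep (hS p hp).nr ((univ : Finset Γ).filter fun w =>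
      c / N * X.card ≤ ((X.filter fun b => p.2 (w⁻¹ * b) ≤ r).card : ℝ)) X r (c / N * X.card) hr
      (fun z hz => (mem_filter.1 hz).2)
    refine ⟨Z, ?_, fun w hw => h2 w (mem_filter.2 ⟨mem_univ _, hw⟩)⟩
    have h3 : (Z.card : ℝ) * (c / N) * X.card ≤ 1 * X.card := by linarith
    have h4 := le_of_mul_le_mul_right h3 hn
    rw [hM, le_div_iff₀ hc0]
    have h5 : (Z.card : ℝ) * (c / N) * N ≤ 1 * N := mul_le_mul_of_nonneg_right h4 hN0.le
    have h6 : (Z.card : ℝ) * (c / N) * N = Z.card * c := by field_simp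
    linarith
  choose! Z hZc hZ using hZ
  -- the parts of the new set
  obtain ⟨Va, hVa⟩ : ∃ Va : Finset Γ, Va = (univ : Finset Γ).filter fun z =>
    c * X.card ≤ (ct z X V : ℝ) := ⟨_, rfl⟩
  obtain ⟨Vb, hVb⟩ : ∃ Vb : Finset Γ, Vb = (univ : Finset Γ).filter fun z => ∃ v,
    c * X.card ≤ ((X.filter fun b => z * b ∈ X ∧ p₀.2 (v⁻¹ * b) ≤ r).card : ℝ) := ⟨_, rfl⟩
  have hVaconj : ∀ z ∈ Va, ∀ h : Γ, h * z * h⁻¹ ∈ Va := by
    intro z hz h
    rw [hVa, mem_filter] at hz ⊢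
    rw [ct_conj hXcn.conj hV.conj]
    exact ⟨mem_univ _, hz.2⟩
  have hVbconj : ∀ z ∈ Vb, ∀ h : Γ, h * z * h⁻¹ ∈ Vb := by
    intro z hz h
    rw [hVb, mem_filter] at hz ⊢
    obtain ⟨-, v, hv⟩ := hz
    refine ⟨mem_univ _, h * v * h⁻¹, hv.trans ?_⟩
    have : (X.filter fun b => z * b ∈ X ∧ p₀.2 (v⁻¹ * b) ≤ r).card ≤
        (X.filter fun b => h * z * h⁻¹ * b ∈ X ∧ p₀.2 ((h * v * h⁻¹)⁻¹ * b) ≤ r).card := by
      refine card_le_card_of_injOn (fun b => h * b * h⁻¹) ?_ ?_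
      · intro b hb
        rw [mem_coe, mem_filter] at hb ⊢
        obtain ⟨hb1, hb2, hb3⟩ := hb
        refine ⟨hXcn.conj b hb1 h, ?_, ?_⟩
        · have h1 : h * z * h⁻¹ * (h * b * h⁻¹) = h * (z * b) * h⁻¹ := by group
          simp only
          rw [h1]
          exact hXcn.conj _ hb2 h
        · have h1 : (h * v * h⁻¹)⁻¹ * (h * b * h⁻¹) = h * (v⁻¹ * b) * h⁻¹ := by group
          simp only
          rw [h1, hp₀'.conj]
          exact hb3
      · intro b _ b' _ hbc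
        have h1 : h * b * h⁻¹ = h * b' * h⁻¹ := hbc
        exact mul_left_cancel (mul_right_cancel h1)
    exact_mod_cast this
  have hVbinv : ∀ z ∈ Vb, z⁻¹ ∈ Vb := by
    intro z hz
    rw [hVb, mem_filter] at hz ⊢
    obtain ⟨-, v, hv⟩ := hz
    refine ⟨mem_univ _, z * v, hv.trans ?_⟩
    have : (X.filter fun b => z * b ∈ X ∧ p₀.2 (v⁻¹ * b) ≤ r).card ≤
        (X.filter fun b => z⁻¹ * b ∈ X ∧ p₀.2 ((z * v)⁻¹ * b) ≤ r).card := by
      refine card_le_card_of_injOn (fun b => z * b) ?_ ?_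
      · intro b hb
        rw [mem_coe, mem_filter] at hb ⊢
        obtain ⟨hb1, hb2, hb3⟩ := hb
        refine ⟨hb2, ?_, ?_⟩
        · simpa using hb1
        · have h1 : (z * v)⁻¹ * (z * b) = v⁻¹ * b := by group
          simp only
          rw [h1]
          exact hb3
      · intro b _ b' _ hbc
        exact mul_left_cancel hbc
    exact_mod_cast this
  obtain ⟨V', hV'⟩ : ∃ V' : Finset Γ, V' = V ∪ (Va ∪ ((univ.filter fun z => z⁻¹ ∈ Va) ∪ Vb)) :=
    ⟨_, rfl⟩
  have hmem : ∀ z, z ∈ V' ↔ z ∈ V ∨ z ∈ Va ∨ z⁻¹ ∈ Va ∨ z ∈ Vb := by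
    intro z
    rw [hV', mem_union, mem_union, mem_union, mem_filter]
    simp
  refine ⟨V', ⟨⟨?_, ?_, ?_⟩, ?_, X.filter (fun b => p₀.2 (u⁻¹ * b) ≤ r), ?_, ?_, ?_, ?_⟩, ?_⟩
  · rw [hmem]; exact Or.inl hV.one
  · intro v hv
    rw [hmem] at hv ⊢
    rcases hv with h | h | h | h
    · exact Or.inl (hV.inv v h)
    · right; right; left; rwa [inv_inv]
    · right; left; exact h
    · right; right; right; exact hVbinv v h
  · intro v hv h
    rw [hmem] at hv ⊢
    rcases hv with h1 | h1 | h1 | h1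
    · exact Or.inl (hV.conj v h1 h)
    · right; left; exact hVaconj v h1 h
    · right; right; left
      have h2 : (h * v * h⁻¹)⁻¹ = h * v⁻¹ * h⁻¹ := by group
      rw [h2]
      exact hVaconj _ h1 h
    · right; right; right; exact hVbconj v h1 h
  · intro v hv
    rw [hmem]
    exact Or.inl hv
  · rw [← card_pos]
    have h1 : (0 : ℝ) < ((X.filter fun b => p₀.2 (u⁻¹ * b) ≤ r).card : ℝ) :=
      lt_of_lt_of_le (by positivity) hu
    exact_mod_cast h1
  · exact (filter_subset _ _).trans hXA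
  · intro b hb
    have := (mem_filter.1 hb).1
    rw [hX, mem_sdiff] at this
    exact this.2
  · intro z hz
    rw [hmem] at hz
    push Not at hz
    obtain ⟨-, hz1, -, hz2⟩ := hz
    rw [hVa, mem_filter] at hz1
    rw [hVb, mem_filter] at hz2
    push Not at hz1 hz2
    have h1 := hz1 (mem_univ _)
    have h2 := hz2 (mem_univ _) u
    have h3 : ((X.filter fun b => p₀.2 (u⁻¹ * b) ≤ r).filter fun b => z * b ∈ A ∨ z * b ∈ V) ⊆
        (X.filter fun b => z * b ∈ V) ∪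
          (X.filter fun b => z * b ∈ X ∧ p₀.2 (u⁻¹ * b) ≤ r) := by
      intro b hb
      rw [mem_filter, mem_filter] at hb
      obtain ⟨⟨hb1, hb2⟩, hb3⟩ := hb
      rw [mem_union, mem_filter, mem_filter]
      by_cases h4 : z * b ∈ V
      · left; exact ⟨hb1, h4⟩
      · right
        refine ⟨hb1, ?_, hb2⟩
        rw [hX, mem_sdiff]
        exact ⟨hb3.resolve_right h4, h4⟩
    have h4 := (card_le_card h3).trans (card_union_le _ _)
    have h5 : ((((X.filter fun b => p₀.2 (u⁻¹ * b) ≤ r).filter fun b =>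
        z * b ∈ A ∨ z * b ∈ V).card : ℕ) : ℝ) ≤ ct z X V +
          ((X.filter fun b => z * b ∈ X ∧ p₀.2 (u⁻¹ * b) ≤ r).card : ℝ) := by
      unfold ct
      exact_mod_cast h4
    have h6 : ((m : ℝ) + 1) * ((((X.filter fun b => p₀.2 (u⁻¹ * b) ≤ r).filter fun b =>
        z * b ∈ A ∨ z * b ∈ V).card : ℕ) : ℝ) <
        ((X.filter fun b => p₀.2 (u⁻¹ * b) ≤ r).card : ℝ) := by
      have h7 : ((m : ℝ) + 1) * ((((X.filter fun b => p₀.2 (u⁻¹ * b) ≤ r).filter fun b =>
        z * b ∈ A ∨ z * b ∈ V).card : ℕ) : ℝ) ≤ ((m : ℝ) + 1) * (2 * (c * X.card)) :=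
        mul_le_mul_of_nonneg_left (by linarith) hm1.le
      have h8 : ((m : ℝ) + 1) * (2 * (c * X.card)) = η * X.card / 2 := by
        rw [hc]; field_simp; ring
      have h9 : 0 < η * X.card := by positivity
      linarith
    exact_mod_cast h6
  · -- the cover
    obtain ⟨S1, hS1⟩ : ∃ S1 : Finset (Γ × (Γ → ℝ)), S1 = S.biUnion fun p =>
      (Z p).image fun x => (p.1 * x⁻¹, p.2) := ⟨_, rfl⟩
    obtain ⟨S2, hS2⟩ : ∃ S2 : Finset (Γ × (Γ → ℝ)), S2 = S.biUnion fun p =>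
      (Z p).image fun x => (x * p.1⁻¹, p.2) := ⟨_, rfl⟩
    obtain ⟨S3, hS3⟩ : ∃ S3 : Finset (Γ × (Γ → ℝ)), S3 = (Z p₀ ×ˢ Z p₀).image fun x =>
      (x.1 * x.2⁻¹, p₀.2) := ⟨_, rfl⟩
    have hbi : ∀ f : (Γ × (Γ → ℝ)) → Γ → (Γ × (Γ → ℝ)),
        (((S.biUnion fun p => (Z p).image (f p)).card : ℕ) : ℝ) ≤ N * M := by
      intro f
      have h1 : (((S.biUnion fun p => (Z p).image (f p)).card : ℕ) : ℝ) ≤
          ∑ p ∈ S, (((Z p).image (f p)).card : ℝ) := by exact_mod_cast card_biUnion_le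
      have h2 : ∑ p ∈ S, (((Z p).image (f p)).card : ℝ) ≤ ∑ p ∈ S, M := by
        apply sum_le_sum
        intro p hp
        refine le_trans ?_ (hZc p hp)
        exact_mod_cast card_image_le
      rw [sum_const, nsmul_eq_mul] at h2
      exact h1.trans (h2.trans (mul_le_mul_of_nonneg_right hSN hM0.le))
    refine ⟨S ∪ (S1 ∪ (S2 ∪ S3)), ?_, ?_, ?_⟩
    · have h1 : (S1.card : ℝ) ≤ N * M := by rw [hS1]; exact hbi _
      have h2 : (S2.card : ℝ) ≤ N * M := by rw [hS2]; exact hbi _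
      have h3 : (S3.card : ℝ) ≤ M ^ 2 := by
        rw [hS3]
        have h4 : (((Z p₀ ×ˢ Z p₀).image fun x => (x.1 * x.2⁻¹, p₀.2)).card : ℝ) ≤
            ((Z p₀).card : ℝ) * (Z p₀).card := by
          rw [← Nat.cast_mul, ← card_product]
          exact_mod_cast card_image_le
        refine h4.trans ?_
        rw [pow_two]
        exact mul_le_mul (hZc p₀ hp₀) (hZc p₀ hp₀) (Nat.cast_nonneg _) hM0.le
      have h5 := (card_union_le S (S1 ∪ (S2 ∪ S3))).trans (Nat.add_le_add_left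
        ((card_union_le S1 (S2 ∪ S3)).trans (Nat.add_le_add_left (card_union_le S2 S3) _)) _)
      have h6 : (((S ∪ (S1 ∪ (S2 ∪ S3))).card : ℕ) : ℝ) ≤
          S.card + (S1.card + (S2.card + S3.card)) := by exact_mod_cast h5
      linarith
    · intro p hp
      rw [mem_union, mem_union, mem_union] at hp
      rcases hp with hp | hp | hp | hp
      · exact hS p hp
      · rw [hS1, mem_biUnion] at hp
        obtain ⟨p', hp', hp⟩ := hp
        obtain ⟨x, _, rfl⟩ := mem_image.1 hp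
        exact hS p' hp'
      · rw [hS2, mem_biUnion] at hp
        obtain ⟨p', hp', hp⟩ := hp
        obtain ⟨x, _, rfl⟩ := mem_image.1 hp
        exact hS p' hp'
      · rw [hS3] at hp
        obtain ⟨x, _, rfl⟩ := mem_image.1 hp
        exact hS p₀ hp₀
    · -- elements of `Va`
      have hVacov : ∀ z ∈ Va, ∃ p ∈ S, ∃ x ∈ Z p, p.2 (x * p.1⁻¹ * z) ≤ 2 * r := by
        intro z hz
        rw [hVa, mem_filter] at hz
        have h1 : ∃ p ∈ S, c / N * X.card ≤
            ((X.filter fun b => p.2 ((z⁻¹ * p.1)⁻¹ * b) ≤ r).card : ℝ) := by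
          by_contra hcon
          push Not at hcon
          have h2 : (X.filter fun b => z * b ∈ V) ⊆ S.biUnion fun p =>
              X.filter fun b => p.2 ((z⁻¹ * p.1)⁻¹ * b) ≤ r := by
            intro b hb
            rw [mem_filter] at hb
            obtain ⟨p, hp, h3⟩ := hSV _ hb.2
            rw [mem_biUnion]
            refine ⟨p, hp, mem_filter.2 ⟨hb.1, ?_⟩⟩
            have h4 : (z⁻¹ * p.1)⁻¹ * b = p.1⁻¹ * (z * b) := by group
            rw [h4]
            exact h3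
          have h3 : (ct z X V : ℝ) ≤ ∑ p ∈ S,
              ((X.filter fun b => p.2 ((z⁻¹ * p.1)⁻¹ * b) ≤ r).card : ℝ) := by
            unfold ct
            exact_mod_cast (card_le_card h2).trans card_biUnion_le
          have h4 : ∑ p ∈ S, ((X.filter fun b => p.2 ((z⁻¹ * p.1)⁻¹ * b) ≤ r).card : ℝ) <
              ∑ p ∈ S, c / N * X.card := sum_lt_sum_of_nonempty ⟨p₀, hp₀⟩ hcon
          rw [sum_const, nsmul_eq_mul] at h4
          have h5 : (S.card : ℝ) * (c / N * X.card) ≤ N * (c / N * X.card) :=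
            mul_le_mul_of_nonneg_right hSN (by positivity)
          have h6 : N * (c / N * X.card) = c * X.card := by field_simp
          linarith [hz.2]
        obtain ⟨p, hp, h2⟩ := h1
        obtain ⟨x, hx, h3⟩ := hZ p hp _ h2
        refine ⟨p, hp, x, hx, ?_⟩
        have hνp := (hS p hp).nr
        have h4 : p.2 (x * p.1⁻¹ * z) = p.2 (x⁻¹ * (z⁻¹ * p.1)) := by
          rw [← hνp.inv (x⁻¹ * (z⁻¹ * p.1))]
          have h5 : (x⁻¹ * (z⁻¹ * p.1))⁻¹ = p.1⁻¹ * z * x := by group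
          rw [h5, hνp.comm (p.1⁻¹ * z) x]
          congr 1
          group
        rw [h4]
        exact h3
      intro v hv
      rw [hmem] at hv
      rcases hv with hv | hv | hv | hv
      · obtain ⟨p, hp, h1⟩ := hSV v hv
        exact ⟨p, mem_union_left _ hp, h1.trans (by linarith)⟩
      · obtain ⟨p, hp, x, hx, h1⟩ := hVacov v hv
        refine ⟨(p.1 * x⁻¹, p.2), ?_, ?_⟩
        · rw [mem_union, mem_union]
          right; left
          rw [hS1, mem_biUnion]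
          exact ⟨p, hp, mem_image.2 ⟨x, hx, rfl⟩⟩
        · have h2 : (p.1 * x⁻¹)⁻¹ * v = x * p.1⁻¹ * v := by group
          simp only
          rw [h2]
          linarith
      · obtain ⟨p, hp, x, hx, h1⟩ := hVacov _ hv
        refine ⟨(x * p.1⁻¹, p.2), ?_, ?_⟩
        · rw [mem_union, mem_union, mem_union]
          right; right; left
          rw [hS2, mem_biUnion]
          exact ⟨p, hp, mem_image.2 ⟨x, hx, rfl⟩⟩
        · have hνp := (hS p hp).nr
          have h2 : p.2 ((x * p.1⁻¹)⁻¹ * v) = p.2 (x * p.1⁻¹ * v⁻¹) := by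
            rw [← hνp.inv ((x * p.1⁻¹)⁻¹ * v), hνp.comm (x * p.1⁻¹) v⁻¹]
            congr 1
            group
          simp only
          rw [h2]
          linarith
      · rw [hVb, mem_filter] at hv
        obtain ⟨-, w, hw⟩ := hv
        have h1 : c / N * X.card ≤ ((X.filter fun b => p₀.2 (w⁻¹ * b) ≤ r).card : ℝ) := by
          have h2 : ((X.filter fun b => v * b ∈ X ∧ p₀.2 (w⁻¹ * b) ≤ r).card : ℝ) ≤
              ((X.filter fun b => p₀.2 (w⁻¹ * b) ≤ r).card : ℝ) := by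
            have : (X.filter fun b => v * b ∈ X ∧ p₀.2 (w⁻¹ * b) ≤ r) ⊆
                X.filter fun b => p₀.2 (w⁻¹ * b) ≤ r := by
              intro b hb
              rw [mem_filter] at hb ⊢
              exact ⟨hb.1, hb.2.2⟩
            exact_mod_cast card_le_card this
          have h3 := mul_le_mul_of_nonneg_right hcN hn.le
          linarith
        have h1' : c / N * X.card ≤
            ((X.filter fun b => p₀.2 ((v * w)⁻¹ * b) ≤ r).card : ℝ) := by
          have h2 : ((X.filter fun b => v * b ∈ X ∧ p₀.2 (w⁻¹ * b) ≤ r).card : ℝ) ≤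
              ((X.filter fun b => p₀.2 ((v * w)⁻¹ * b) ≤ r).card : ℝ) := by
            have : (X.filter fun b => v * b ∈ X ∧ p₀.2 (w⁻¹ * b) ≤ r).card ≤
                (X.filter fun b => p₀.2 ((v * w)⁻¹ * b) ≤ r).card := by
              refine card_le_card_of_injOn (fun b => v * b) ?_ ?_
              · intro b hb
                rw [mem_coe, mem_filter] at hb ⊢
                refine ⟨hb.2.1, ?_⟩
                have h3 : (v * w)⁻¹ * (v * b) = w⁻¹ * b := by group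
                simp only
                rw [h3]
                exact hb.2.2
              · intro b _ b' _ hbc
                exact mul_left_cancel hbc
            exact_mod_cast this
          have h3 := mul_le_mul_of_nonneg_right hcN hn.le
          linarith
        obtain ⟨x, hx, h2⟩ := hZ p₀ hp₀ _ h1
        obtain ⟨x', hx', h3⟩ := hZ p₀ hp₀ _ h1'
        refine ⟨(x' * x⁻¹, p₀.2), ?_, ?_⟩
        · rw [mem_union, mem_union, mem_union]
          right; right; right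
          rw [hS3]
          exact mem_image.2 ⟨(x', x), mem_product.2 ⟨hx', hx⟩, rfl⟩
        · simp only
          have h4 : (x' * x⁻¹)⁻¹ * v = x * (x'⁻¹ * v) := by group
          rw [h4, hp₀'.comm]
          have h5 : x'⁻¹ * v * x = x'⁻¹ * (v * w) * (x⁻¹ * w)⁻¹ := by group
          rw [h5]
          refine (hp₀'.mul _ _).trans ?_
          rw [hp₀'.inv]
          linarith

end Pool.Agent.H57.NC
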